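import Pool.Agent.R719.AT.Red

set_option autoImplicit false
set_option linter.unusedSectionVars false

open scoped InnerProductSpace
open Filter Topology

/-! The dimension of a sum of orthogonal finite dimensional blocks which are freely permuted. -/

namespace Pool.Agent.V5helper32.PF

open Pool.Agent.W649.ZL TH57.Thr.Ati

variable {G : Type} [Group G] {κ : Type} [Fintype κ] [DecidableEq κ]

/-- the translation as a linear map -/
noncomputable def trL (k : G) : EE G κ →ₗ[ℂ] EE G κ where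
  toFun := tr k
  map_add' := tr_add k
  map_smul' := tr_smul k

theorem trL_apply (k : G) (f : EE G κ) : trL k f = tr k f := rfl

theorem map_map_trL (W : Submodule ℂ (EE G κ)) (k l : G) :
    (W.map (trL l)).map (trL k) = W.map (trL (k * l)) := by
  rw [← Submodule.map_comp]
  congr 1
  ext1 f
  change tr k (tr l f) = tr (k * l) f
  rw [tr_tr]

theorem map_one_trL (W : Submodule ℂ (EE G κ)) : W.map (trL 1) = W := by
  have : (trL 1 : EE G κ →ₗ[ℂ] EE G κ) = LinearMap.id := by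
    ext1 f
    change tr 1 f = f
    rw [tr_one]
  rw [this, Submodule.map_id]

/-- the dimension of the span of the translates of finitely many vectors, if they are orthonormal -/
theorem vd_orbits {ι : Type} [Fintype ι] [DecidableEq ι] (b : ι → EE G κ)
    (hb : Orthonormal ℂ (fun x : G × ι => tr x.1⁻¹ (b x.2))) :
    vd (Submodule.span ℂ (Set.range fun x : G × ι => tr x.1⁻¹ (b x.2))) = Fintype.card ι := by
  classical
  let V := hb.orthogonalFamily
  let Φ : EE G ι →L[ℂ] EE G κ := V.linearIsometry.toContinuousLinearMap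
  have hΦi : ∀ f g, ⟪Φ f, Φ g⟫_ℂ = ⟪f, g⟫_ℂ := fun f g => V.linearIsometry.inner_map_map f g
  have hΦd : ∀ x : G × ι, Φ (dl x) = tr x.1⁻¹ (b x.2) := by
    intro x
    have e : (dl x : EE G ι) = lp.single 2 x (1 : ℂ) := by
      unfold dl
      congr
      exact Subsingleton.elim _ _
    rw [e]
    change V.linearIsometry (lp.single 2 x (1 : ℂ)) = _
    rw [V.linearIsometry_apply_single]
    simp [LinearIsometry.toSpanSingleton]
  have hΦe : Eqv Φ := by
    intro k f
    apply ext_inner_right ℂ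
    intro g
    -- it is enough to compare the adjoints
    have h1 : ContinuousLinearMap.adjoint Φ (tr k⁻¹ g) = tr k⁻¹ (ContinuousLinearMap.adjoint Φ g) := by
      ext ⟨h, i⟩
      rw [← inner_dl_left, ContinuousLinearMap.adjoint_inner_right, hΦd, tr_apply, ← inner_dl_left,
        ContinuousLinearMap.adjoint_inner_right, hΦd, ← inner_tr k⁻¹⁻¹]
      simp only [tr_tr, inv_inv, mul_inv_cancel, tr_one, mul_inv_rev]
    rw [inner_tr_left, ← ContinuousLinearMap.adjoint_inner_right, inner_tr_left, ← h1,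
      ContinuousLinearMap.adjoint_inner_right]
  have h2 : LinearMap.range (ContinuousLinearMap.adjoint Φ : EE G κ →ₗ[ℂ] EE G ι) = ⊤ := by
    rw [LinearMap.range_eq_top]
    intro f
    refine ⟨Φ f, ?_⟩
    apply ext_inner_right ℂ
    intro g
    change ⟪ContinuousLinearMap.adjoint Φ (Φ f), g⟫_ℂ = _
    rw [ContinuousLinearMap.adjoint_inner_left, hΦi]
  have h3 := vd_range_adjoint Φ hΦe
  rw [h2, vd_top] at h3
  have h4 : LinearMap.range (Φ : EE G ι →ₗ[ℂ] EE G κ)
      = (Submodule.span ℂ (Set.range fun x : G × ι => tr x.1⁻¹ (b x.2))).topologicalClosure := by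
    have h5 := V.range_linearIsometry
    refine Eq.trans h5 ?_
    congr 1
    rw [Submodule.span_range_eq_iSup]
    refine iSup_congr fun x => ?_
    ext y
    rw [LinearMap.mem_range, Submodule.mem_span_singleton]
    rfl
  rw [← vd_closure, ← h4, ← h3]

/-- **Blocks.** -/
theorem vd_blocks (Γ : Set (Submodule ℂ (EE G κ))) (h1 : ∀ W ∈ Γ, FiniteDimensional ℂ W)
    (h2 : ∀ W ∈ Γ, ∀ k : G, W.map (trL k) ∈ Γ) (h3 : ∀ W ∈ Γ, ∀ W' ∈ Γ, W ≠ W' → W ⟂ W')
    (h4 : ∀ W ∈ Γ, W ≠ ⊥ → ∀ k : G, W.map (trL k) = W → k = 1)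
    (F : Set (Submodule ℂ (EE G κ))) (hF : F.Finite) (hFΓ : F ⊆ Γ)
    (h5 : ∀ W ∈ Γ, ∃ k : G, W.map (trL k) ∈ F) :
    ∃ d : ℕ, vd (⨆ W ∈ Γ, W) = d := by
  classical
  have : Finite F := hF
  let st : Setoid F :=
    { r := fun W W' => ∃ k : G, (W : Submodule ℂ (EE G κ)).map (trL k) = W'
      iseqv := ⟨fun W => ⟨1, map_one_trL _⟩,
        fun {W W'} ⟨k, hk⟩ => ⟨k⁻¹, by rw [← hk, map_map_trL, inv_mul_cancel, map_one_trL]⟩,
        fun {W W' W''} ⟨k, hk⟩ ⟨l, hl⟩ => ⟨l * k, by rw [← hl, ← hk, map_map_trL]⟩⟩ }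
  let Q := Quotient st
  have : Finite Q := inferInstance
  have : Fintype Q := Fintype.ofFinite Q
  let rep : Q → Submodule ℂ (EE G κ) := fun q => (q.out : F)
  have hrep : ∀ q, rep q ∈ Γ := fun q => hFΓ (q.out : F).2
  have hfd : ∀ q, FiniteDimensional ℂ (rep q) := fun q => h1 _ (hrep q)
  let B : ∀ q, OrthonormalBasis (Fin (Module.finrank ℂ (rep q))) ℂ (rep q) := fun q =>
    stdOrthonormalBasis ℂ (rep q)
  let ι := Σ q : Q, Fin (Module.finrank ℂ (rep q))
  let b : ι → EE G κ := fun x => (B x.1 x.2 : EE G κ)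
  have hmem : ∀ x : G × ι, tr x.1⁻¹ (b x.2) ∈ (rep x.2.1).map (trL x.1⁻¹) := fun x =>
    ⟨b x.2, (B x.2.1 x.2.2).2, rfl⟩
  have hbn : ∀ x, ‖b x‖ = 1 := fun x => (B x.1).orthonormal.1 x.2
  have hb0 : ∀ x : ι, rep x.1 ≠ ⊥ := by
    intro x h0
    have h6 : b x ∈ rep x.1 := (B x.1 x.2).2
    rw [h0, Submodule.mem_bot] at h6
    have := hbn x
    rw [h6, norm_zero] at this
    exact zero_ne_one this
  have horth : Orthonormal ℂ (fun x : G × ι => tr x.1⁻¹ (b x.2)) := by
    refine ⟨fun x => by rw [norm_tr]; exact hbn _, ?_⟩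
    rintro ⟨g, q, i⟩ ⟨g', q', i'⟩ hne
    by_cases hW : (rep q).map (trL g⁻¹) = (rep q').map (trL g'⁻¹)
    · have e1 : (rep q).map (trL (g' * g⁻¹)) = rep q' := by
        rw [← map_map_trL, hW, map_map_trL, mul_inv_cancel, map_one_trL]
      have e2 : q = q' := by
        have : (q.out : F) ≈ (q'.out : F) := ⟨g' * g⁻¹, e1⟩
        have h6 := Quotient.sound this
        rwa [Quotient.out_eq, Quotient.out_eq] at h6
      subst e2
      have e3 : g' * g⁻¹ = 1 := h4 _ (hrep q) (hb0 ⟨q, i⟩) _ e1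
      have e4 : g' = g := by rwa [mul_inv_eq_one] at e3
      subst e4
      have e5 : i ≠ i' := fun h => hne (by rw [h])
      change ⟪tr g'⁻¹ (b ⟨q, i⟩), tr g'⁻¹ (b ⟨q, i'⟩)⟫_ℂ = 0
      rw [inner_tr]
      exact (B q).orthonormal.2 e5
    · have h6 := h3 _ (h2 _ (hrep q) _) _ (h2 _ (hrep q') _) hW
      rw [Submodule.isOrtho_iff_inner_eq] at h6
      exact h6 _ (hmem ⟨g, q, i⟩) _ (hmem ⟨g', q', i'⟩)
  have hsup : (⨆ W ∈ Γ, W)
      = Submodule.span ℂ (Set.range fun x : G × ι => tr x.1⁻¹ (b x.2)) := by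
    apply le_antisymm
    · refine iSup₂_le fun W hW => ?_
      obtain ⟨k, hk⟩ := h5 W hW
      let q : Q := Quotient.mk st ⟨_, hk⟩
      obtain ⟨l, hl⟩ : (q.out : F) ≈ (⟨_, hk⟩ : F) := Quotient.exact (Quotient.out_eq q)
      have hl' : (rep q).map (trL l) = W.map (trL k) := hl
      have e1 : W = (rep q).map (trL (k⁻¹ * l)) := by
        rw [← map_map_trL, hl', map_map_trL, inv_mul_cancel, map_one_trL]
      rw [e1]
      rintro _ ⟨y, hy, rfl⟩
      change tr (k⁻¹ * l) y ∈ _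
      have h6 : y = ∑ i, (B q).repr ⟨y, hy⟩ i • b ⟨q, i⟩ := by
        have h7 := (B q).sum_repr ⟨y, hy⟩
        have h8 : ((∑ i, (B q).repr ⟨y, hy⟩ i • B q i : rep q) : EE G κ) = y :=
          congrArg (Subtype.val) h7
        refine h8.symm.trans ?_
        rw [Submodule.coe_sum]
        rfl
      have h9 : tr (k⁻¹ * l) y = ∑ i, (B q).repr ⟨y, hy⟩ i • tr (k⁻¹ * l) (b ⟨q, i⟩) := by
        conv_lhs => rw [h6]
        rw [← trL_apply, map_sum]
        refine Finset.sum_congr rfl fun i _ => ?_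
        rw [map_smul, trL_apply]
      rw [h9]
      refine Submodule.sum_mem _ fun i _ => Submodule.smul_mem _ _ (Submodule.subset_span ?_)
      exact ⟨((k⁻¹ * l)⁻¹, ⟨q, i⟩), by simp⟩
    · rw [Submodule.span_le]
      rintro _ ⟨x, rfl⟩
      have h6 : (rep x.2.1).map (trL x.1⁻¹) ≤ ⨆ W ∈ Γ, W :=
        le_iSup₂_of_le _ (h2 _ (hrep x.2.1) _) le_rfl
      exact h6 (hmem x)
  refine ⟨Fintype.card ι, ?_⟩
  rw [hsup]
  exact vd_orbits b horth

end Pool.Agent.V5helper32.PF
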