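import Pool.Agent.V5helper32.PF.Three

set_option autoImplicit false
set_option linter.unusedSectionVars false

open scoped InnerProductSpace ComplexOrder

/-! Discrete rings, integer matrices and reindexing. -/

namespace Pool.Agent.V5helper32.PF

open Matrix Pool.Agent.W649.ZL TH57.Thr.Ati Pool.Agent.R719.AT Pool.Agent.R472.Grid

theorem disc_bot : Disc (⊥ : Subring ℂ) := by
  refine ⟨fun a ha => ?_, fun a ha _ => ?_⟩
  · obtain ⟨z, rfl⟩ := Subring.mem_bot.1 ha
    rw [map_intCast]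
    exact Subring.mem_bot.2 ⟨z, rfl⟩
  · obtain ⟨z, rfl⟩ := Subring.mem_bot.1 ha
    exact ⟨z, rfl⟩

theorem disc_quad {ω : ℂ} {t n : ℤ} (h : ω ^ 2 = t * ω - n) (hn : t ^ 2 < 4 * n) :
    Disc (Subring.closure {ω}) := by
  have him : ω.im ≠ 0 := by
    intro h0
    have hr : ω = (ω.re : ℂ) := by
      apply Complex.ext
      · simp
      · simp [h0]
    have h1 : (ω.re ^ 2 : ℝ) = t * ω.re - n := by
      rw [hr] at h
      exact_mod_cast h
    have h2 : ((t : ℝ) ^ 2) < 4 * n := by exact_mod_cast hn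
    nlinarith [sq_nonneg (2 * ω.re - t)]
  have hconj : (starRingEnd ℂ) ω = t - ω := by
    have h1 : (starRingEnd ℂ) ω ^ 2 = t * (starRingEnd ℂ) ω - n := by
      have := congrArg (starRingEnd ℂ) h
      simpa using this
    have h2 : (ω - (starRingEnd ℂ) ω) * (ω + (starRingEnd ℂ) ω - t) = 0 := by
      linear_combination h - h1
    rcases mul_eq_zero.1 h2 with h3 | h3
    · exfalso
      have h4 := congrArg Complex.im h3
      simp only [Complex.sub_im, Complex.conj_im, sub_neg_eq_add, Complex.zero_im] at h4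
      apply him
      linarith
    · linear_combination h3
  have hmem : ∀ a ∈ Subring.closure {ω}, ∃ x y : ℤ, a = x + y * ω := by
    intro a ha
    induction ha using Subring.closure_induction with
    | mem a ha =>
      rw [Set.mem_singleton_iff] at ha
      exact ⟨0, 1, by rw [ha]; simp⟩
    | zero => exact ⟨0, 0, by simp⟩
    | one => exact ⟨1, 0, by simp⟩
    | add a b _ _ ha hb =>
      obtain ⟨x, y, rfl⟩ := ha
      obtain ⟨x', y', rfl⟩ := hb
      exact ⟨x + x', y + y', by push_cast; ring⟩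
    | neg a _ ha =>
      obtain ⟨x, y, rfl⟩ := ha
      exact ⟨-x, -y, by push_cast; ring⟩
    | mul a b _ _ ha hb =>
      obtain ⟨x, y, rfl⟩ := ha
      obtain ⟨x', y', rfl⟩ := hb
      refine ⟨x * x' - y * y' * n, x * y' + y * x' + y * y' * t, ?_⟩
      push_cast
      linear_combination (y * y' : ℂ) * h
  refine ⟨fun a ha => ?_, fun a ha h0 => ?_⟩
  · obtain ⟨x, y, rfl⟩ := hmem a ha
    rw [map_add, map_mul, map_intCast, map_intCast, hconj]
    have hω : ω ∈ Subring.closure {ω} := Subring.subset_closure rfl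
    exact add_mem (intCast_mem _ x) (mul_mem (intCast_mem _ y) (sub_mem (intCast_mem _ t) hω))
  · obtain ⟨x, y, rfl⟩ := hmem a ha
    rw [Complex.add_im, Complex.mul_im] at h0
    simp only [Complex.intCast_im, Complex.intCast_re, zero_mul, add_zero, zero_add] at h0
    rcases mul_eq_zero.1 h0 with h1 | h1
    · exact ⟨x, by rw [Int.cast_eq_zero.1 h1]; simp⟩
    · exact absurd h1 him

variable {G : Type} [Group G]

/-- integer matrices are images -/
theorem exists_toC {K L : Type} (X : Matrix K L (MonoidAlgebra ℂ G))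
    (hX : ∀ i j g, ∃ z : ℤ, (X i j).coeff g = z) :
    ∃ B : Matrix K L (MonoidAlgebra ℤ G),
      B.map (MonoidAlgebra.mapRingHom G (Int.castRingHom ℂ)) = X := by
  refine ⟨Matrix.of fun i j => MonoidAlgebra.ofCoeff ((X i j).coeff.mapRange (fun c => ⌊c.re⌋)
    (by simp)), ?_⟩
  ext i j g
  have h1 : ((MonoidAlgebra.mapRingHom G (Int.castRingHom ℂ))
      (MonoidAlgebra.ofCoeff ((X i j).coeff.mapRange (fun c => ⌊c.re⌋) (by simp)))).coeff g
      = ((⌊((X i j).coeff g).re⌋ : ℤ) : ℂ) := by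
    simp
  refine Eq.trans h1 ?_
  obtain ⟨z, hz⟩ := hX i j g
  rw [hz]
  simp

/-- the coefficients of products -/
theorem coeff_mul_int {x y : MonoidAlgebra ℂ G} (hx : ∀ g, ∃ z : ℤ, x.coeff g = z)
    (hy : ∀ g, ∃ z : ℤ, y.coeff g = z) (g : G) : ∃ z : ℤ, (x * y).coeff g = z := by
  rw [MonoidAlgebra.coeff_mul_apply_left]
  choose a ha using hx
  choose b hb using hy
  refine ⟨∑ h ∈ x.coeff.support, a h * b (h⁻¹ * g), ?_⟩
  unfold Finsupp.sum
  push_cast
  exact Finset.sum_congr rfl fun h _ => by rw [ha, hb]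

theorem coeff_self_int {K L : Type} [Fintype L] (X : Matrix K L (MonoidAlgebra ℂ G))
    (hX : ∀ i j g, ∃ z : ℤ, (X i j).coeff g = z) (i j : K) (g : G) :
    ∃ z : ℤ, ((X * sta X) i j).coeff g = z := by
  rw [Matrix.mul_apply, MonoidAlgebra.coeff_sum, Finsupp.finsetSum_apply]
  have h1 : ∀ k, ∃ z : ℤ, ((X i k * sta X k j).coeff g : ℂ) = z := by
    intro k
    refine coeff_mul_int (hX i k) (fun g => ?_) g
    obtain ⟨z, hz⟩ := hX j k g⁻¹
    refine ⟨z, ?_⟩
    change (st (X j k)).coeff g = _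
    rw [st_coeff, hz, map_intCast]
  choose z hz using h1
  refine ⟨∑ k, z k, ?_⟩
  push_cast
  exact Finset.sum_congr rfl fun k _ => hz k

/-- **Level three, for rational matrices of any size.** -/
theorem level3' {K L : Type} [Fintype K] [Fintype L] [DecidableEq K] [DecidableEq L]
    (A : Matrix K L (MonoidAlgebra ℂ G)) (hA : ∀ i j g, ∃ q : ℚ, (A i j).coeff g = q) :
    ∃ (k : ℕ) (M : Matrix (Fin k) (Fin k) (MonoidAlgebra ℂ G)),
      (∀ i j g, ∃ z : ℤ, (M i j).coeff g = z) ∧ (form M).PosSemidef ∧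
      (∀ i, ((M i i).coeff 1).re ≤ 3) ∧ kap M = kap A := by
  obtain ⟨A', hA', hk'⟩ := clear_den ∅ A (fun i j g => by
    obtain ⟨q, hq⟩ := hA i j g
    rw [hq]
    exact SubfieldClass.ratCast_mem _ q)
  have hint : ∀ i j g, ∃ z : ℤ, (A' i j).coeff g = z := by
    intro i j g
    have h1 := hA' i j g
    rw [Subring.closure_empty] at h1
    obtain ⟨z, hz⟩ := Subring.mem_bot.1 h1
    exact ⟨z, hz.symm⟩
  obtain ⟨B, hB⟩ := exists_toC (A' * sta A') (coeff_self_int A' hint)
  obtain ⟨κ, i1, i2, M, h1, h2, h3, h4⟩ := level3 B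
  have h5 : toC B = A' * sta A' := hB
  rw [h5, kap_mul_sta, hk'] at h4
  let e : Fin (Fintype.card κ) ≃ κ := (Fintype.equivFin κ).symm
  refine ⟨_, M.submatrix e e, fun i j g => h1 _ _ _, ?_, fun i => h3 _, by rw [kap_re, h4]⟩
  have h6 : form (M.submatrix e e) = (form M).submatrix (fun u => (e u.1, u.2))
      (fun u => (e u.1, u.2)) := rfl
  rw [h6]
  exact h2.submatrix _

end Pool.Agent.V5helper32.PF
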