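import Mathlib

set_option autoImplicit false
set_option linter.unusedSectionVars false

open scoped InnerProductSpace
open Filter Topology

/-! Vectors of length at most two with inner products in a discrete ring, in a Hilbert space. -/

namespace Pool.Agent.V5helper32.PF

/-- `R` is closed under complex conjugation and its real elements are integers. -/
structure Disc (R : Subring ℂ) : Prop where
  conj : ∀ a ∈ R, (starRingEnd ℂ) a ∈ R
  int : ∀ a ∈ R, a.im = 0 → ∃ z : ℤ, a = z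

theorem Disc.sq {R : Subring ℂ} (hR : Disc R) {a : ℂ} (ha : a ∈ R) : ∃ n : ℕ, ‖a‖ ^ 2 = n := by
  have h1 : a * (starRingEnd ℂ) a ∈ R := R.mul_mem ha (hR.conj a ha)
  rw [Complex.mul_conj] at h1
  obtain ⟨z, hz⟩ := hR.int _ h1 (Complex.ofReal_im _)
  have h2 : (Complex.normSq a) = (z : ℝ) := by exact_mod_cast hz
  have h3 : (0 : ℝ) ≤ z := by rw [← h2]; exact Complex.normSq_nonneg a
  have h4 : 0 ≤ z := by exact_mod_cast h3
  refine ⟨z.toNat, ?_⟩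
  rw [← Complex.normSq_eq_norm_sq, h2]
  have : ((z.toNat : ℤ) : ℝ) = z := by rw [Int.toNat_of_nonneg h4]
  exact_mod_cast this.symm

theorem Disc.small {R : Subring ℂ} (hR : Disc R) {a : ℂ} (ha : a ∈ R) (h : ‖a‖ < 1) : a = 0 := by
  obtain ⟨n, hn⟩ := hR.sq ha
  have h1 : ‖a‖ ^ 2 < 1 := by
    have := norm_nonneg a
    nlinarith
  rw [hn] at h1
  have h2 : n = 0 := by
    have : n < 1 := by exact_mod_cast h1
    omega
  rw [h2] at hn
  have : ‖a‖ = 0 := by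
    have := hn
    simpa using this
  exact norm_eq_zero.1 this

theorem Disc.one_le {R : Subring ℂ} (hR : Disc R) {a : ℂ} (ha : a ∈ R) (h : a ≠ 0) : 1 ≤ ‖a‖ := by
  by_contra hc
  exact h (hR.small ha (not_le.1 hc))

/-- limits in a discrete ring -/
theorem Disc.lim {R : Subring ℂ} (hR : Disc R) {U : Filter ℕ} [U.NeBot] {s : ℕ → ℂ} {a : ℂ}
    (hs : ∀ n, s n ∈ R) (h : Tendsto s U (𝓝 a)) : a ∈ R ∧ ∀ᶠ n in U, s n = a := by
  have h1 : ∀ᶠ n in U, dist (s n) a < 1 / 2 := by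
    exact h (Metric.ball_mem_nhds a (by norm_num))
  obtain ⟨n₀, h0⟩ := h1.exists
  have h2 : ∀ᶠ n in U, s n = s n₀ := by
    filter_upwards [h1] with n hn
    have h3 : ‖s n - s n₀‖ < 1 := by
      rw [← dist_eq_norm]
      have := dist_triangle_right (s n) (s n₀) a
      linarith
    exact sub_eq_zero.1 (hR.small (R.sub_mem (hs n) (hs n₀)) h3)
  have h4 : a = s n₀ := by
    have : Tendsto s U (𝓝 (s n₀)) := by
      refine Tendsto.congr' ?_ tendsto_const_nhds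
      filter_upwards [h2] with n hn
      exact hn.symm
    exact tendsto_nhds_unique h this
  rw [h4]
  exact ⟨hs n₀, h2⟩

variable {H : Type*} [NormedAddCommGroup H] [InnerProductSpace ℂ H] [CompleteSpace H]

/-- weak limits along an ultrafilter -/
theorem weak_lim (U : Ultrafilter ℕ) (s : ℕ → H) (C : ℝ) (hs : ∀ n, ‖s n‖ ≤ C) :
    ∃ v : H, ∀ z, Tendsto (fun n => ⟪s n, z⟫_ℂ) U (𝓝 ⟪v, z⟫_ℂ) := by
  let f : ℕ → WeakDual ℂ H := fun n =>
    StrongDual.toWeakDual (InnerProductSpace.toDual ℂ H (s n))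
  have hc := WeakDual.isCompact_closedBall (𝕜 := ℂ) (E := H) (0 : StrongDual ℂ H) C
  obtain ⟨φ, _, h2⟩ := hc.ultrafilter_le_nhds (U.map f) (by
    rw [le_principal_iff]
    refine Filter.univ_mem' (f := (U : Filter ℕ)) fun n => ?_
    change InnerProductSpace.toDual ℂ H (s n) ∈ Metric.closedBall (0 : StrongDual ℂ H) C
    rw [mem_closedBall_zero_iff, LinearIsometryEquiv.norm_map]
    exact hs n)
  refine ⟨(InnerProductSpace.toDual ℂ H).symm (WeakDual.toStrongDual φ), fun z => ?_⟩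
  rw [InnerProductSpace.toDual_symm_apply]
  have h3 : Tendsto (fun x : WeakDual ℂ H => x z) (𝓝 φ) (𝓝 (φ z)) :=
    (WeakDual.eval_continuous z).tendsto φ
  exact h3.comp h2

variable {X : Type*} (R : Subring ℂ) (r : X → H)

/-- the vectors whose inner products with all `r x` are in `R` -/
def Dual : Set H := {z | ∀ x, ⟪r x, z⟫_ℂ ∈ R}

/-- the vectors in the dual whose inner products with the dual are in `R` -/
def LM : Set H := {z | z ∈ Dual R r ∧ ∀ y ∈ Dual R r, ⟪z, y⟫_ℂ ∈ R}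

variable {R r}

section
variable (hR : Disc R)

theorem LM.inner {z w : H} (hz : z ∈ LM R r) (hw : w ∈ LM R r) : ⟪z, w⟫_ℂ ∈ R := hz.2 w hw.1

theorem LM.sub {z w : H} (hz : z ∈ LM R r) (hw : w ∈ LM R r) : z - w ∈ LM R r := by
  refine ⟨fun x => ?_, fun y hy => ?_⟩
  · rw [inner_sub_right]; exact R.sub_mem (hz.1 x) (hw.1 x)
  · rw [inner_sub_left]; exact R.sub_mem (hz.2 y hy) (hw.2 y hy)

include hR

theorem LM.smul {a : ℂ} (ha : a ∈ R) {z : H} (hz : z ∈ LM R r) : a • z ∈ LM R r := by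
  refine ⟨fun x => ?_, fun y hy => ?_⟩
  · rw [inner_smul_right]; exact R.mul_mem ha (hz.1 x)
  · rw [inner_smul_left]; exact R.mul_mem (hR.conj a ha) (hz.2 y hy)

theorem mem_LM (hr : ∀ x y, ⟪r x, r y⟫_ℂ ∈ R) (x : X) : r x ∈ LM R r :=
  ⟨fun y => hr y x, fun _ hy => hy x⟩

theorem LM.sq {z : H} (hz : z ∈ LM R r) : ∃ n : ℕ, ‖z‖ ^ 2 = n := by
  have h1 := LM.inner hz hz
  rw [inner_self_eq_norm_sq_to_K] at h1
  obtain ⟨k, hk⟩ := hR.int _ h1 (by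
    have : ((‖z‖ : ℂ) ^ 2) = ((‖z‖ ^ 2 : ℝ) : ℂ) := by push_cast; rfl
    change ((‖z‖ : ℂ) ^ 2).im = 0
    rw [this, Complex.ofReal_im])
  have h2 : ‖z‖ ^ 2 = (k : ℝ) := by
    have h3 : ((‖z‖ : ℂ) ^ 2) = (k : ℂ) := hk
    exact_mod_cast h3
  have h3 : (0 : ℝ) ≤ k := by rw [← h2]; positivity
  have h4 : 0 ≤ k := by exact_mod_cast h3
  refine ⟨k.toNat, ?_⟩
  rw [h2]
  have : ((k.toNat : ℤ) : ℝ) = k := by rw [Int.toNat_of_nonneg h4]
  exact_mod_cast this.symm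

/-- `LM` is closed under bounded weak limits -/
theorem LM.lim {U : Ultrafilter ℕ} {s : ℕ → H} (hs : ∀ n, s n ∈ LM R r) {v : H}
    (hv : ∀ z, Tendsto (fun n => ⟪s n, z⟫_ℂ) U (𝓝 ⟪v, z⟫_ℂ)) : v ∈ LM R r := by
  refine ⟨fun x => ?_, fun y hy => ?_⟩
  · have h1 := (hR.lim (U := (U : Filter ℕ)) (s := fun n => ⟪s n, r x⟫_ℂ) (fun n => by
      rw [← inner_conj_symm]; exact hR.conj _ ((hs n).1 x)) (hv (r x))).1
    rw [← inner_conj_symm]
    exact hR.conj _ h1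
  · exact (hR.lim (U := (U : Filter ℕ)) (s := fun n => ⟪s n, y⟫_ℂ) (fun n => (hs n).2 y hy)
      (hv y)).1

/-- vectors in `LM` are in the closed span of the `r x` -/
theorem LM.nonorth {z : H} (hz : z ∈ LM R r) (h0 : z ≠ 0) : ∃ x, ⟪r x, z⟫_ℂ ≠ 0 := by
  by_contra hc
  push Not at hc
  -- all real multiples of `z` are in the dual
  have h1 : ∀ t : ℝ, (t : ℂ) • z ∈ Dual R r := by
    intro t x
    rw [inner_smul_right, hc x, mul_zero]
    exact R.zero_mem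
  have h2 : ∀ t : ℝ, ∃ n : ℕ, (t * ‖z‖ ^ 2) ^ 2 = n := by
    intro t
    have h3 := hz.2 _ (h1 t)
    rw [inner_smul_right, inner_self_eq_norm_sq_to_K] at h3
    obtain ⟨n, hn⟩ := hR.sq h3
    refine ⟨n, ?_⟩
    rw [← hn, norm_mul]
    have e1 : ‖((‖z‖ : ℂ)) ^ 2‖ = ‖z‖ ^ 2 := by
      rw [norm_pow, Complex.norm_real, norm_norm]
    have e2 : ‖(t : ℂ)‖ = |t| := by rw [Complex.norm_real, Real.norm_eq_abs]
    change (t * ‖z‖ ^ 2) ^ 2 = (‖(t : ℂ)‖ * ‖((‖z‖ : ℂ)) ^ 2‖) ^ 2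
    rw [e1, e2, mul_pow, mul_pow, sq_abs]
  have hz0 : 0 < ‖z‖ := norm_pos_iff.2 h0
  obtain ⟨n, hn⟩ := h2 (1 / (2 * ‖z‖ ^ 2))
  have h4 : (1 / (2 * ‖z‖ ^ 2) * ‖z‖ ^ 2) ^ 2 = 1 / 4 := by
    field_simp
    norm_num
  rw [h4] at hn
  have h5 : (4 * n : ℝ) = 1 := by linarith
  have h6 : 4 * n = 1 := by exact_mod_cast h5
  omega

/-- unit vectors of `LM` are orthogonal or proportional -/
theorem unit_unit {e f : H} (he : e ∈ LM R r) (hf : f ∈ LM R r) (he1 : ‖e‖ = 1) (hf1 : ‖f‖ = 1)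
    (h : ⟪e, f⟫_ℂ ≠ 0) : f = ⟪e, f⟫_ℂ • e ∧ ‖⟪e, f⟫_ℂ‖ = 1 := by
  have h1 : 1 ≤ ‖⟪e, f⟫_ℂ‖ := hR.one_le (LM.inner he hf) h
  have h2 : ‖⟪e, f⟫_ℂ‖ ≤ 1 := by
    have := norm_inner_le_norm (𝕜 := ℂ) e f
    rwa [he1, hf1, one_mul] at this
  have h3 : ‖⟪e, f⟫_ℂ‖ = 1 := le_antisymm h2 h1
  refine ⟨?_, h3⟩
  have h4 : ‖f - ⟪e, f⟫_ℂ • e‖ ^ 2 = 0 := by
    have h5 : ⟪e, f - ⟪e, f⟫_ℂ • e⟫_ℂ = 0 := by
      rw [inner_sub_right, inner_smul_right, inner_self_eq_norm_sq_to_K, he1]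
      simp
    have h6 : ‖f‖ ^ 2 = ‖f - ⟪e, f⟫_ℂ • e‖ ^ 2 + ‖⟪e, f⟫_ℂ • e‖ ^ 2 := by
      have h7 : ⟪f - ⟪e, f⟫_ℂ • e, ⟪e, f⟫_ℂ • e⟫_ℂ = 0 := by
        rw [inner_smul_right, inner_eq_zero_symm.1 h5, mul_zero]
      have h8 := norm_add_sq_eq_norm_sq_add_norm_sq_of_inner_eq_zero _ _ h7
      rw [sub_add_cancel] at h8
      simpa [sq] using h8
    rw [norm_smul, he1, hf1, h3] at h6
    linarith
  have h5 : ‖f - ⟪e, f⟫_ℂ • e‖ = 0 := by
    simpa using h4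
  exact sub_eq_zero.1 (norm_eq_zero.1 h5)

/-- a vector of length at most two which is not orthogonal to a unit vector of `LM` is a combination of
this vector and another unit vector of `LM`, or zero -/
theorem split {z e : H} (hz : z ∈ LM R r) (hz2 : ‖z‖ ^ 2 ≤ 2) (he : e ∈ LM R r) (he1 : ‖e‖ = 1)
    (h : ⟪e, z⟫_ℂ ≠ 0) : ∃ w ∈ LM R r, z = ⟪e, z⟫_ℂ • e + w ∧ ⟪e, w⟫_ℂ = 0 ∧
      ‖z‖ ^ 2 = ‖⟪e, z⟫_ℂ‖ ^ 2 + ‖w‖ ^ 2 ∧ (w = 0 ∨ ‖w‖ = 1) := by
  have h1 : 1 ≤ ‖⟪e, z⟫_ℂ‖ := hR.one_le (LM.inner he hz) h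
  set w := z - ⟪e, z⟫_ℂ • e with hw
  have hwm : w ∈ LM R r := LM.sub hz (LM.smul hR (LM.inner he hz) he)
  have h5 : ⟪e, w⟫_ℂ = 0 := by
    rw [hw, inner_sub_right, inner_smul_right, inner_self_eq_norm_sq_to_K, he1]
    simp
  have h6 : ‖z‖ ^ 2 = ‖⟪e, z⟫_ℂ‖ ^ 2 + ‖w‖ ^ 2 := by
    have h7 : ⟪w, ⟪e, z⟫_ℂ • e⟫_ℂ = 0 := by
      rw [inner_smul_right, inner_eq_zero_symm.1 h5, mul_zero]
    have h8 := norm_add_sq_eq_norm_sq_add_norm_sq_of_inner_eq_zero _ _ h7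
    rw [hw, sub_add_cancel, norm_smul, he1, mul_one, ← hw] at h8
    nlinarith [h8]
  refine ⟨w, hwm, ?_, h5, h6, ?_⟩
  · rw [hw]; abel
  · obtain ⟨n, hn⟩ := LM.sq hR hwm
    have h9 : ‖w‖ ^ 2 ≤ 1 := by nlinarith
    rw [hn] at h9
    have h10 : n ≤ 1 := by exact_mod_cast h9
    interval_cases n
    · left
      have : ‖w‖ = 0 := by simpa using hn
      exact norm_eq_zero.1 this
    · right
      have h11 : ‖w‖ ^ 2 = 1 := by rw [hn]; norm_num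
      exact (pow_eq_one_iff_of_nonneg (norm_nonneg w) two_ne_zero).1 h11

end

/-- `z` is not orthogonal to some unit vector of `LM` -/
def Good (R : Subring ℂ) (r : X → H) (z : H) : Prop := ∃ e ∈ LM R r, ‖e‖ = 1 ∧ ⟪e, z⟫_ℂ ≠ 0

section
variable (hR : Disc R)
include hR

theorem Good.next {z y : H} (hz : z ∈ LM R r) (hz2 : ‖z‖ ^ 2 ≤ 2) (hg : Good R r z)
    (h : ⟪z, y⟫_ℂ ≠ 0) : Good R r y := by
  obtain ⟨e, he, he1, h1⟩ := hg
  obtain ⟨w, hw, h2, _, _, h5⟩ := split hR hz hz2 he he1 h1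
  by_cases h6 : ⟪e, y⟫_ℂ = 0
  · rcases h5 with h5 | h5
    · exfalso
      apply h
      rw [h2, h5, add_zero, inner_smul_left, h6, mul_zero]
    · refine ⟨w, hw, h5, fun h7 => h ?_⟩
      rw [h2, inner_add_left, inner_smul_left, h6, h7]
      simp
  · exact ⟨e, he, he1, h6⟩

/-- infinitely many vectors of length two which are not orthogonal to `z` -/
theorem Good.of_infinite {z : H} (S : Set H) (hS : S.Infinite)
    (h : ∀ s ∈ S, s ∈ LM R r ∧ ‖s‖ ^ 2 = 2 ∧ ⟪s, z⟫_ℂ ≠ 0) (hz : z ∈ LM R r) : Good R r z := by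
  let f : ℕ ↪ S := Set.Infinite.natEmbedding S hS
  let s : ℕ → H := fun n => f n
  have hs : ∀ n, s n ∈ LM R r ∧ ‖s n‖ ^ 2 = 2 ∧ ⟪s n, z⟫_ℂ ≠ 0 := fun n => h _ (f n).2
  have hsi : Function.Injective s := fun a b hab => f.injective (Subtype.ext hab)
  let U : Ultrafilter ℕ := hyperfilter ℕ
  have hns : ∀ n, ‖s n‖ ≤ 2 := by
    intro n
    have := (hs n).2.1
    nlinarith [norm_nonneg (s n)]
  obtain ⟨v, hv⟩ := weak_lim U s 2 hns
  have hvm : v ∈ LM R r := LM.lim hR (fun n => (hs n).1) hv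
  have h1 : ⟪v, z⟫_ℂ ≠ 0 := by
    intro h0
    have h2 := (hR.lim (U := (U : Filter ℕ)) (s := fun n => ⟪s n, z⟫_ℂ)
      (fun n => LM.inner (hs n).1 hz) (hv z)).2
    obtain ⟨n, hn⟩ := h2.exists
    exact (hs n).2.2 (hn.trans h0)
  have h3 := (hR.lim (U := (U : Filter ℕ)) (s := fun n => ⟪s n, v⟫_ℂ)
      (fun n => LM.inner (hs n).1 hvm) (hv v)).2
  have hvv : ⟪v, v⟫_ℂ = ((‖v‖ ^ 2 : ℝ) : ℂ) := by
    rw [inner_self_eq_norm_sq_to_K]
    push_cast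
    rfl
  -- the norm of `v` is less than two
  have h4 : ‖v‖ ^ 2 < 2 := by
    by_contra hc
    rw [not_lt] at hc
    have h5 : ∀ᶠ n in (U : Filter ℕ), s n = v := by
      filter_upwards [h3] with n hn
      have h6 : ‖⟪s n, v⟫_ℂ‖ = ‖v‖ ^ 2 := by
        rw [hn, hvv, Complex.norm_real, Real.norm_of_nonneg (by positivity)]
      have h7 := norm_inner_le_norm (𝕜 := ℂ) (s n) v
      rw [h6] at h7
      have hv0 : 0 < ‖v‖ := by
        rcases (norm_nonneg v).lt_or_eq with h | h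
        · exact h
        · rw [← h] at hc; norm_num at hc
      have h8 : ‖v‖ ≤ ‖s n‖ := by nlinarith
      have h9 : ‖v‖ ^ 2 = 2 := by
        have := (hs n).2.1
        nlinarith [norm_nonneg (s n)]
      have h10 : ‖s n - v‖ ^ 2 = 0 := by
        rw [@norm_sub_sq ℂ, hn, hvv, (hs n).2.1, h9]
        simp
        norm_num
      have h11 : ‖s n - v‖ = 0 := by simpa using h10
      exact sub_eq_zero.1 (norm_eq_zero.1 h11)
    obtain ⟨n, hn⟩ := h5.exists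
    have h6 : ∀ᶠ m in (U : Filter ℕ), m ≠ n := by
      have : ({n}ᶜ : Set ℕ) ∈ (hyperfilter ℕ : Filter ℕ) :=
        compl_mem_hyperfilter_of_finite (Set.finite_singleton n)
      filter_upwards [this] with m hm
      exact hm
    obtain ⟨m, hm, hmn⟩ := (h5.and h6).exists
    exact hmn (hsi (hm.trans hn.symm))
  obtain ⟨k, hk⟩ := LM.sq hR hvm
  rw [hk] at h4
  have h5 : k < 2 := by exact_mod_cast h4
  refine ⟨v, hvm, ?_, h1⟩
  interval_cases k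
  · exfalso
    have h6 : ‖v‖ = 0 := by simpa using hk
    rw [norm_eq_zero.1 h6, inner_zero_left] at h1
    exact h1 rfl
  · have h6 : ‖v‖ ^ 2 = 1 := by rw [hk]; norm_num
    exact (pow_eq_one_iff_of_nonneg (norm_nonneg v) two_ne_zero).1 h6

/-- **Infinite components consist of good vectors.** -/
theorem Good.comp (hr : ∀ x y, ⟪r x, r y⟫_ℂ ∈ R) (hfin : ∀ x, {y | ⟪r x, r y⟫_ℂ ≠ 0}.Finite)
    (x : X) (h2 : ∀ y, Relation.ReflTransGen (fun a b => ⟪r a, r b⟫_ℂ ≠ 0) x y → ‖r y‖ ^ 2 = 2)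
    (hinf : {y | Relation.ReflTransGen (fun a b => ⟪r a, r b⟫_ℂ ≠ 0) x y}.Infinite) :
    Good R r (r x) := by
  classical
  let Φ : Set H := {s | s ∈ LM R r ∧ ‖s‖ ^ 2 = 2 ∧ ⟪s, r x⟫_ℂ ≠ 0 ∧ {y | ⟪s, r y⟫_ℂ ≠ 0}.Finite}
  have hxx : ⟪r x, r x⟫_ℂ ≠ 0 := by
    have := h2 x .refl
    intro h0
    rw [inner_self_eq_zero] at h0
    rw [h0] at this
    norm_num at this
  have key : ∀ y, Relation.ReflTransGen (fun a b => ⟪r a, r b⟫_ℂ ≠ 0) x y →
      ∃ s ∈ Φ, ⟪s, r y⟫_ℂ ≠ 0 := by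
    intro y hy
    induction hy with
    | refl => exact ⟨r x, ⟨mem_LM hR hr x, h2 x .refl, hxx, hfin x⟩, hxx⟩
    | @tail y z hxy hyz ih =>
      obtain ⟨s, ⟨hs1, hs2, hs3, hs4⟩, hs5⟩ := ih
      by_cases c1 : ⟪s, r z⟫_ℂ = 0
      · by_cases c2 : ⟪r y, r x⟫_ℂ = 0
        · -- reflection
          have hy2 := h2 y hxy
          refine ⟨s - ⟪r y, s⟫_ℂ • r y, ⟨?_, ?_, ?_, ?_⟩, ?_⟩
          · exact LM.sub hs1 (LM.smul hR (hs1.1 y) (mem_LM hR hr y))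
          · rw [@norm_sub_sq ℂ, inner_smul_right, norm_smul, mul_pow, hy2, hs2]
            have e1 : ⟪r y, s⟫_ℂ * ⟪s, r y⟫_ℂ = ((‖⟪r y, s⟫_ℂ‖ ^ 2 : ℝ) : ℂ) := by
              rw [← inner_conj_symm s (r y), Complex.mul_conj, Complex.normSq_eq_norm_sq]
            rw [e1]
            simp only [RCLike.re_to_complex, Complex.ofReal_re]
            ring
          · rw [inner_sub_left, inner_smul_left, c2, mul_zero, sub_zero]
            exact hs3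
          · refine (hs4.union (hfin y)).subset fun w hw => ?_
            by_contra hn
            rw [Set.mem_union, not_or] at hn
            simp only [Set.mem_ofPred_eq, not_not] at hn
            apply hw
            rw [inner_sub_left, inner_smul_left, hn.1, hn.2]
            simp
          · rw [inner_sub_left, inner_smul_left, c1, zero_sub, neg_ne_zero]
            refine mul_ne_zero ?_ hyz
            rw [inner_conj_symm]
            exact hs5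
        · exact ⟨r y, ⟨mem_LM hR hr y, h2 y hxy, c2, hfin y⟩, hyz⟩
      · exact ⟨s, ⟨hs1, hs2, hs3, hs4⟩, c1⟩
  have hΦ : Φ.Infinite := by
    intro hf
    apply hinf
    refine (Set.Finite.biUnion hf (t := fun s => {y | ⟪s, r y⟫_ℂ ≠ 0}) fun s hs => hs.2.2.2).subset ?_
    intro y hy
    obtain ⟨s, hs, h⟩ := key y hy
    exact Set.mem_biUnion hs h
  exact Good.of_infinite hR Φ hΦ (fun s hs => ⟨hs.1, hs.2.1, hs.2.2.1⟩) (mem_LM hR hr x)

end

end Pool.Agent.V5helper32.PF
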