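import Pool.Agent.V5helper32.PF.Lat
import Pool.Agent.V5helper32.PF.Blk

set_option autoImplicit false
set_option linter.unusedSectionVars false

open scoped InnerProductSpace
open Filter Topology

/-! The blocks of a positive semidefinite matrix with small diagonal over the group ring of a torsion-free
group. -/

namespace Pool.Agent.V5helper32.PF

open Pool.Agent.W649.ZL TH57.Thr.Ati Pool.Agent.R719.AT

variable {G : Type} [Group G] {κ : Type} [Fintype κ] [DecidableEq κ]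

/-- the translated index -/
def ac (k : G) (x : G × κ) : G × κ := (x.1 * k⁻¹, x.2)

/-- the data: the vectors `r x` -/
structure Dat (R : Subring ℂ) (r : G × κ → EE G κ) : Prop where
  disc : Disc R
  gram : ∀ x y, ⟪r x, r y⟫_ℂ ∈ R
  fin : ∀ x, {y | ⟪r x, r y⟫_ℂ ≠ 0}.Finite
  le : ∀ x, ‖r x‖ ^ 2 ≤ 2
  tr : ∀ k x, tr k (r x) = r (ac k x)
  tf : ∀ g : G, ∀ n : ℕ, 0 < n → g ^ n = 1 → g = 1

variable {R : Subring ℂ} {r : G × κ → EE G κ}

/-- the component -/
def Cp (r : G × κ → EE G κ) (x : G × κ) : Set (G × κ) :=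
  {y | Relation.ReflTransGen (fun a b => ⟪r a, r b⟫_ℂ ≠ 0) x y}

theorem adj_symm {a b : G × κ} (h : ⟪r a, r b⟫_ℂ ≠ 0) : ⟪r b, r a⟫_ℂ ≠ 0 :=
  fun h' => h (inner_eq_zero_symm.1 h')

theorem Cp_self (x : G × κ) : x ∈ Cp r x := .refl

theorem Cp_symm {x y : G × κ} (h : y ∈ Cp r x) : x ∈ Cp r y := by
  induction h with
  | refl => exact .refl
  | tail _ h ih => exact Relation.ReflTransGen.head (adj_symm h) ih

theorem Cp_trans {x y z : G × κ} (h : y ∈ Cp r x) (h' : z ∈ Cp r y) : z ∈ Cp r x :=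
  Relation.ReflTransGen.trans h h'

theorem Cp_adj {x y z : G × κ} (h : y ∈ Cp r x) (h' : ⟪r y, r z⟫_ℂ ≠ 0) : z ∈ Cp r x :=
  Relation.ReflTransGen.tail h h'

theorem Cp_eq {x y : G × κ} (h : y ∈ Cp r x) : Cp r y = Cp r x := by
  ext z
  exact ⟨fun hz => Cp_trans h hz, fun hz => Cp_trans (Cp_symm h) hz⟩

section
variable (D : Dat R r)
include D

theorem adj_ac (k : G) {a b : G × κ} : ⟪r (ac k a), r (ac k b)⟫_ℂ = ⟪r a, r b⟫_ℂ := by
  rw [← D.tr, ← D.tr, inner_tr]

theorem Cp_ac (k : G) {x y : G × κ} (h : y ∈ Cp r x) : ac k y ∈ Cp r (ac k x) := by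
  induction h with
  | refl => exact .refl
  | tail _ h ih => exact Cp_adj ih (by rw [adj_ac D]; exact h)

theorem ac_inv (k : G) (x : G × κ) : ac k⁻¹ (ac k x) = x := by
  unfold ac
  simp

theorem ac_inv' (k : G) (x : G × κ) : ac k (ac k⁻¹ x) = x := by
  unfold ac
  simp

theorem Cp_ac_image (k : G) (x : G × κ) : Cp r (ac k x) = ac k '' Cp r x := by
  ext y
  constructor
  · intro h
    refine ⟨ac k⁻¹ y, ?_, ac_inv' D k y⟩
    have := Cp_ac D k⁻¹ h
    rwa [ac_inv D] at this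
  · rintro ⟨z, hz, rfl⟩
    exact Cp_ac D k hz

theorem Dual_tr (k : G) {z : EE G κ} (hz : z ∈ Dual R r) : tr k z ∈ Dual R r := by
  intro x
  have h1 : r x = tr k (r (ac k⁻¹ x)) := by rw [D.tr, ac_inv' D]
  rw [h1, inner_tr]
  exact hz _

theorem LM_tr (k : G) {z : EE G κ} (hz : z ∈ LM R r) : tr k z ∈ LM R r := by
  refine ⟨Dual_tr D k hz.1, fun y hy => ?_⟩
  rw [inner_tr_left]
  exact hz.2 _ (Dual_tr D _ hy)

theorem Good_tr (k : G) {z : EE G κ} (hz : Good R r z) : Good R r (tr k z) := by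
  obtain ⟨e, he, he1, h⟩ := hz
  exact ⟨tr k e, LM_tr D k he, by rw [norm_tr]; exact he1, by rw [inner_tr]; exact h⟩

theorem Good_ac (k : G) {x : G × κ} (hx : Good R r (r (ac k x))) : Good R r (r x) := by
  have := Good_tr D k⁻¹ hx
  rwa [D.tr, ac_inv D] at this

theorem rLM (x : G × κ) : r x ∈ LM R r := mem_LM D.disc D.gram x

theorem good_comp {x y : G × κ} (h : y ∈ Cp r x) (hx : Good R r (r x)) : Good R r (r y) := by
  induction h with
  | refl => exact hx
  | tail _ h ih => exact Good.next D.disc (rLM D _) (D.le _) ih h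

/-- the lengths in a bad component -/
theorem bad_two {x : G × κ} (h0 : r x ≠ 0) (hx : ¬ Good R r (r x)) : ‖r x‖ ^ 2 = 2 := by
  obtain ⟨n, hn⟩ := LM.sq D.disc (rLM D x)
  have h1 := D.le x
  rw [hn] at h1 ⊢
  have h2 : n ≤ 2 := by exact_mod_cast h1
  interval_cases n
  · exfalso
    apply h0
    have : ‖r x‖ = 0 := by simpa using hn
    exact norm_eq_zero.1 this
  · exfalso
    apply hx
    have h3 : ‖r x‖ ^ 2 = 1 := by rw [hn]; norm_num
    exact ⟨r x, rLM D x, (pow_eq_one_iff_of_nonneg (norm_nonneg _) two_ne_zero).1 h3, by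
      rw [inner_self_ne_zero]; exact h0⟩
  · norm_num

theorem bad_comp {x y : G × κ} (h0 : r x ≠ 0) (hx : ¬ Good R r (r x)) (h : y ∈ Cp r x) :
    r y ≠ 0 ∧ ¬ Good R r (r y) := by
  refine ⟨?_, fun hy => hx (good_comp D (Cp_symm h) hy)⟩
  rcases Relation.ReflTransGen.cases_tail h with h | ⟨z, _, hz⟩
  · rw [h]; exact h0
  · intro h1
    rw [h1, inner_zero_right] at hz
    exact hz rfl

theorem bad_finite {x : G × κ} (h0 : r x ≠ 0) (hx : ¬ Good R r (r x)) : (Cp r x).Finite := by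
  by_contra hc
  apply hx
  refine Good.comp D.disc D.gram D.fin x (fun y hy => ?_) hc
  obtain ⟨h1, h2⟩ := bad_comp D h0 hx (y := y) hy
  exact bad_two D h1 h2

end

/-- the lines of the unit vectors of `LM` -/
def G1 (R : Subring ℂ) (r : G × κ → EE G κ) : Set (Submodule ℂ (EE G κ)) :=
  {W | ∃ e ∈ LM R r, ‖e‖ = 1 ∧ W = Submodule.span ℂ {e}}

/-- the spans of the finite bad components -/
def G2 (R : Subring ℂ) (r : G × κ → EE G κ) : Set (Submodule ℂ (EE G κ)) :=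
  {W | ∃ x, r x ≠ 0 ∧ ¬ Good R r (r x) ∧ W = Submodule.span ℂ (r '' Cp r x)}

theorem mem_span_line {e w : EE G κ} (h : w ∈ Submodule.span ℂ {e}) : ∃ c : ℂ, w = c • e := by
  obtain ⟨c, hc⟩ := Submodule.mem_span_singleton.1 h
  exact ⟨c, hc.symm⟩

theorem span_smul {e : EE G κ} {c : ℂ} (hc : c ≠ 0) :
    Submodule.span ℂ {c • e} = Submodule.span ℂ {e} :=
  Submodule.span_singleton_smul_eq (isUnit_iff_ne_zero.2 hc) e

theorem orth_span {S : Set (EE G κ)} {z w : EE G κ} (h : ∀ s ∈ S, ⟪s, z⟫_ℂ = 0)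
    (hw : w ∈ Submodule.span ℂ S) : ⟪w, z⟫_ℂ = 0 := by
  induction hw using Submodule.span_induction with
  | mem x hx => exact h x hx
  | zero => exact inner_zero_left _
  | add a b _ _ ha hb => rw [inner_add_left, ha, hb, add_zero]
  | smul c a _ ha => rw [inner_smul_left, ha, mul_zero]

section
variable (D : Dat R r)
include D

theorem blk_fd : ∀ W ∈ G1 R r ∪ G2 R r, FiniteDimensional ℂ W := by
  rintro W (⟨e, _, _, rfl⟩ | ⟨x, h0, hx, rfl⟩)
  · infer_instance
  · have : (r '' Cp r x).Finite := (bad_finite D h0 hx).image r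
    exact FiniteDimensional.span_of_finite ℂ this

theorem blk_tr : ∀ W ∈ G1 R r ∪ G2 R r, ∀ k : G, W.map (trL k) ∈ G1 R r ∪ G2 R r := by
  rintro W (⟨e, he, he1, rfl⟩ | ⟨x, h0, hx, rfl⟩) k
  · left
    refine ⟨tr k e, LM_tr D k he, by rw [norm_tr]; exact he1, ?_⟩
    rw [Submodule.map_span, Set.image_singleton]
    rfl
  · right
    refine ⟨ac k x, ?_, fun h => hx (Good_ac D k h), ?_⟩
    · rw [← D.tr]
      intro h
      apply h0
      rw [← norm_eq_zero, norm_tr, norm_eq_zero] at h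
      exact h
    · rw [Submodule.map_span, Cp_ac_image D, Set.image_image, Set.image_image]
      congr 1
      refine Set.image_congr fun y _ => ?_
      exact D.tr k y

theorem orth12 {e : EE G κ} (he : e ∈ LM R r) (he1 : ‖e‖ = 1) {x : G × κ} (h0 : r x ≠ 0)
    (hx : ¬ Good R r (r x)) {w : EE G κ} (hw : w ∈ Submodule.span ℂ (r '' Cp r x)) :
    ⟪w, e⟫_ℂ = 0 := by
  refine orth_span ?_ hw
  rintro _ ⟨y, hy, rfl⟩
  by_contra hc
  exact (bad_comp D h0 hx hy).2 ⟨e, he, he1, fun h => hc (inner_eq_zero_symm.1 h)⟩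

theorem blk_orth : ∀ W ∈ G1 R r ∪ G2 R r, ∀ W' ∈ G1 R r ∪ G2 R r, W ≠ W' → W ⟂ W' := by
  rintro W (⟨e, he, he1, rfl⟩ | ⟨x, h0, hx, rfl⟩) W' (⟨f, hf, hf1, rfl⟩ | ⟨y, k0, hy, rfl⟩) hne
  · rw [Submodule.isOrtho_iff_inner_eq]
    intro u hu v hv
    obtain ⟨a, rfl⟩ := mem_span_line hu
    obtain ⟨b, rfl⟩ := mem_span_line hv
    by_cases h : ⟪e, f⟫_ℂ = 0
    · rw [inner_smul_left, inner_smul_right, h]; simp
    · exfalso
      apply hne
      obtain ⟨h1, _⟩ := unit_unit D.disc he hf he1 hf1 h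
      rw [h1, span_smul h]
  · rw [Submodule.isOrtho_iff_inner_eq]
    intro u hu v hv
    obtain ⟨a, rfl⟩ := mem_span_line hu
    rw [inner_smul_left, inner_eq_zero_symm.1 (orth12 D he he1 k0 hy hv), mul_zero]
  · rw [Submodule.isOrtho_iff_inner_eq]
    intro u hu v hv
    obtain ⟨b, rfl⟩ := mem_span_line hv
    rw [inner_smul_right, orth12 D hf hf1 h0 hx hu, mul_zero]
  · rw [Submodule.isOrtho_iff_inner_eq]
    intro u hu v hv
    refine orth_span ?_ hu
    rintro _ ⟨a, ha, rfl⟩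
    refine inner_eq_zero_symm.1 (orth_span ?_ hv)
    rintro _ ⟨b, hb, rfl⟩
    by_contra hc
    apply hne
    have h1 : b ∈ Cp r x := Cp_adj ha (adj_symm hc)
    rw [← Cp_eq hb, Cp_eq h1]

/-- powers of a translation -/
theorem tr_pow_smul {k : G} {e : EE G κ} {c : ℂ} (h : tr k e = c • e) (m : ℕ) :
    tr (k ^ m) e = c ^ m • e := by
  induction m with
  | zero => rw [pow_zero, pow_zero, one_smul, tr_one]
  | succ m ih => rw [pow_succ, ← tr_tr, h, tr_smul, ih, smul_smul, pow_succ, mul_comm]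

theorem pow_inj {k : G} (hk : k ≠ 1) : Function.Injective fun m : ℕ => k ^ m := by
  intro a b hab
  have hab' : k ^ a = k ^ b := hab
  rcases lt_trichotomy a b with h | h | h
  · exfalso
    apply hk
    refine D.tf k (b - a) (by omega) ?_
    have : k ^ b = k ^ (b - a) * k ^ a := by rw [← pow_add]; congr 1; omega
    rw [this] at hab'
    exact mul_eq_right.1 hab'.symm
  · exact h
  · exfalso
    apply hk
    refine D.tf k (a - b) (by omega) ?_
    have : k ^ a = k ^ (a - b) * k ^ b := by rw [← pow_add]; congr 1; omega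
    rw [this] at hab'
    exact mul_eq_right.1 hab'

theorem free1 {e : EE G κ} (he : e ∈ LM R r) (he1 : ‖e‖ = 1) {k : G}
    (h : (Submodule.span ℂ {e}).map (trL k) = Submodule.span ℂ {e}) : k = 1 := by
  by_contra hk
  have he0 : e ≠ 0 := by
    intro h0; rw [h0, norm_zero] at he1; exact zero_ne_one he1
  obtain ⟨c, hc⟩ : ∃ c : ℂ, tr k e = c • e := by
    apply mem_span_line
    rw [← h]
    exact ⟨e, Submodule.mem_span_singleton_self e, rfl⟩
  have hc0 : c ≠ 0 := by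
    intro h0
    rw [h0, zero_smul, ← norm_eq_zero, norm_tr, he1] at hc
    exact one_ne_zero hc
  obtain ⟨x, hx⟩ := LM.nonorth D.disc he he0
  have hx' : ⟪e, r x⟫_ℂ ≠ 0 := fun h0 => hx (inner_eq_zero_symm.1 h0)
  obtain ⟨w, hw, h1, h2, h3, h4⟩ := split D.disc (rLM D x) (D.le x) he he1 hx'
  set a := ⟪e, r x⟫_ℂ with ha
  have hewm : ∀ m : ℕ, ⟪e, tr (k ^ m) w⟫_ℂ = 0 := by
    intro m
    have h5 : c ^ m • e = tr (k ^ m) e := (tr_pow_smul D hc m).symm
    have h6 : ⟪c ^ m • e, tr (k ^ m) w⟫_ℂ = 0 := by rw [h5, inner_tr, h2]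
    rw [inner_smul_left] at h6
    rcases mul_eq_zero.1 h6 with h7 | h7
    · exfalso
      exact pow_ne_zero m hc0 ((map_eq_zero _).1 h7)
    · exact h7
  have hin : ∀ m : ℕ, ⟪r x, tr (k ^ m) (r x)⟫_ℂ
      = (starRingEnd ℂ) a * a * c ^ m + ⟪w, tr (k ^ m) w⟫_ℂ := by
    intro m
    have h5 : tr (k ^ m) (r x) = (a * c ^ m) • e + tr (k ^ m) w := by
      conv_lhs => rw [h1]
      rw [tr_add, tr_smul, tr_pow_smul D hc, smul_smul]
    rw [h5]
    conv_lhs => rw [h1]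
    rw [inner_add_left, inner_add_right, inner_add_right, inner_smul_left, inner_smul_left,
      inner_smul_right, hewm m, inner_smul_right, inner_eq_zero_symm.1 h2,
      inner_self_eq_norm_sq_to_K, he1]
    simp only [mul_zero, add_zero, zero_add]
    norm_num
    ring
  -- the inner products vanish for large powers
  obtain ⟨N, hN⟩ : ∃ N : ℕ, ∀ m, N ≤ m → ⟪r x, tr (k ^ m) (r x)⟫_ℂ = 0 := by
    have h5 : {m : ℕ | ⟪r x, tr (k ^ m) (r x)⟫_ℂ ≠ 0}.Finite := by
      refine Set.Finite.of_finite_image (f := fun m => ac (k ^ m) x) ((D.fin x).subset ?_) ?_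
      · rintro _ ⟨m, hm, rfl⟩
        have hm' : ⟪r x, tr (k ^ m) (r x)⟫_ℂ ≠ 0 := hm
        rw [D.tr] at hm'
        exact hm'
      · intro m _ m' _ hmm
        have h6 := (Prod.mk.inj hmm).1
        exact pow_inj D hk (inv_injective (mul_left_cancel h6))
    obtain ⟨N, hN⟩ := h5.bddAbove
    refine ⟨N + 1, fun m hm => ?_⟩
    by_contra hc
    have := hN hc
    omega
  have ha1 : 1 ≤ ‖a‖ := D.disc.one_le (LM.inner he (rLM D x)) hx'
  have hcn : ‖c‖ = 1 := by
    have h5 := congrArg norm hc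
    rw [norm_tr, norm_smul, he1, mul_one] at h5
    exact h5.symm
  have hw1 : ‖w‖ = 1 := by
    rcases h4 with h4 | h4
    · exfalso
      have h5 := hin N
      rw [hN N le_rfl, h4, tr_zero, inner_zero_left, add_zero] at h5
      have h6 : (starRingEnd ℂ) a * a * c ^ N ≠ 0 :=
        mul_ne_zero (mul_ne_zero ((map_ne_zero _).2 hx') hx') (pow_ne_zero _ hc0)
      exact h6 h5.symm
    · exact h4
  have haa : (starRingEnd ℂ) a * a = 1 := by
    have h5 := D.le x
    rw [h3, hw1] at h5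
    have h6 : ‖a‖ = 1 := by
      apply le_antisymm _ ha1
      nlinarith [norm_nonneg a]
    rw [Complex.conj_mul', h6]
    norm_num
  have hwm : ∀ m, N ≤ m → tr (k ^ m) w = (-c ^ m) • w := by
    intro m hm
    have h5 := hin m
    rw [hN m hm, haa, one_mul] at h5
    have h6 : ⟪w, tr (k ^ m) w⟫_ℂ = -c ^ m := by linear_combination -h5
    have h7 : ⟪w, tr (k ^ m) w⟫_ℂ ≠ 0 := by
      rw [h6]; exact neg_ne_zero.2 (pow_ne_zero _ hc0)
    have h8 := (unit_unit D.disc hw (LM_tr D _ hw) hw1 (by rw [norm_tr]; exact hw1) h7).1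
    rw [h6] at h8
    exact h8
  have h5 := hwm (N + N) (by omega)
  rw [pow_add, ← tr_tr, hwm N le_rfl, tr_smul, hwm N le_rfl, smul_smul] at h5
  have h6 : (c ^ (N + N) + c ^ (N + N)) • w = 0 := by
    have h7 : (-c ^ N * -c ^ N) • w - (-c ^ (N + N)) • w = 0 := sub_eq_zero.2 h5
    rw [← sub_smul] at h7
    rw [← h7]
    congr 1
    ring
  rcases smul_eq_zero.1 h6 with h7 | h7
  · have h8 : c ^ (N + N) = 0 := by
      have : (2 : ℂ) * c ^ (N + N) = 0 := by linear_combination h7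
      rcases mul_eq_zero.1 this with h9 | h9
      · norm_num at h9
      · exact h9
    exact pow_ne_zero _ hc0 h8
  · rw [h7, norm_zero] at hw1
    exact zero_ne_one hw1

theorem map_pow {W : Submodule ℂ (EE G κ)} {k : G} (h : W.map (trL k) = W) (m : ℕ) :
    W.map (trL (k ^ m)) = W := by
  induction m with
  | zero => rw [pow_zero, map_one_trL]
  | succ m ih => rw [pow_succ, ← map_map_trL, h, ih]

theorem free2 {x : G × κ} (h0 : r x ≠ 0) (hx : ¬ Good R r (r x)) {k : G}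
    (h : (Submodule.span ℂ (r '' Cp r x)).map (trL k) = Submodule.span ℂ (r '' Cp r x)) :
    k = 1 := by
  by_contra hk
  have h1 : ∀ m : ℕ, ac (k ^ m) x ∈ Cp r x := by
    intro m
    have h2 := map_pow D h m
    have h3 : r (ac (k ^ m) x) ∈ Submodule.span ℂ (r '' Cp r x) := by
      rw [← h2, ← D.tr]
      exact ⟨r x, Submodule.subset_span ⟨x, Cp_self x, rfl⟩, rfl⟩
    by_contra hc
    have h4 : ⟪r (ac (k ^ m) x), r (ac (k ^ m) x)⟫_ℂ = 0 := by
      refine orth_span ?_ h3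
      rintro _ ⟨y, hy, rfl⟩
      by_contra hc'
      exact hc (Cp_adj hy hc')
    rw [adj_ac D, inner_self_eq_zero] at h4
    exact h0 h4
  have h2 : (Set.range fun m : ℕ => ac (k ^ m) x).Finite := by
    refine (bad_finite D h0 hx).subset ?_
    rintro _ ⟨m, rfl⟩
    exact h1 m
  refine Set.infinite_range_of_injective ?_ h2
  intro m m' hmm
  have h6 := (Prod.mk.inj hmm).1
  exact pow_inj D hk (inv_injective (mul_left_cancel h6))

theorem blk_free : ∀ W ∈ G1 R r ∪ G2 R r, W ≠ ⊥ → ∀ k : G, W.map (trL k) = W → k = 1 := by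
  rintro W (⟨e, he, he1, rfl⟩ | ⟨x, h0, hx, rfl⟩) _ k hk
  · exact free1 D he he1 hk
  · exact free2 D h0 hx hk

/-- the blocks which are not orthogonal to one of the `r (1, i)` -/
def FF (R : Subring ℂ) (r : G × κ → EE G κ) : Set (Submodule ℂ (EE G κ)) :=
  {W | W ∈ G1 R r ∪ G2 R r ∧ ∃ i : κ, ∃ w ∈ W, ⟪r ((1 : G), i), w⟫_ℂ ≠ 0}

theorem FF_fin : (FF R r).Finite := by
  have h1 : FF R r ⊆ ⋃ i : κ, {W | W ∈ G1 R r ∪ G2 R r ∧ ∃ w ∈ W, ⟪r ((1 : G), i), w⟫_ℂ ≠ 0} := by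
    rintro W ⟨h, i, w, hw, hn⟩
    exact Set.mem_iUnion.2 ⟨i, h, w, hw, hn⟩
  refine (Set.finite_iUnion fun i => ?_).subset h1
  set z := r ((1 : G), i) with hz
  by_cases hg : Good R r z
  · obtain ⟨e, he, he1, h⟩ := hg
    obtain ⟨w, hw, h1, h2, h3, h4⟩ := split D.disc (rLM D _) (D.le _) he he1 h
    refine (Set.toFinite {Submodule.span ℂ {e}, Submodule.span ℂ {w}}).subset ?_
    rintro W ⟨⟨f, hf, hf1, rfl⟩ | ⟨x, h0, hx, rfl⟩, v, hv, hn⟩
    · obtain ⟨b, rfl⟩ := mem_span_line hv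
      have h5 : ⟪z, f⟫_ℂ ≠ 0 := by
        intro h6
        rw [inner_smul_right, h6, mul_zero] at hn
        exact hn rfl
      by_cases h6 : ⟪e, f⟫_ℂ = 0
      · right
        have h7 : ⟪w, f⟫_ℂ ≠ 0 := by
          intro h7
          apply h5
          rw [hz, h1, inner_add_left, inner_smul_left, h6, h7]
          simp
        have hw0 : ‖w‖ = 1 := by
          rcases h4 with h4 | h4
          · rw [h4, inner_zero_left] at h7
            exact absurd rfl h7
          · exact h4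
        rw [Set.mem_singleton_iff, (unit_unit D.disc hw hf hw0 hf1 h7).1, span_smul h7]
      · left
        rw [(unit_unit D.disc he hf he1 hf1 h6).1, span_smul h6]
    · exfalso
      apply hn
      refine inner_eq_zero_symm.1 (orth_span ?_ hv)
      rintro _ ⟨y, hy, rfl⟩
      by_contra hc
      exact (bad_comp D h0 hx hy).2 (Good.next D.disc (rLM D _) (D.le _)
        ⟨e, he, he1, h⟩ (adj_symm hc))
  · refine (Set.toFinite {Submodule.span ℂ (r '' Cp r ((1 : G), i))}).subset ?_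
    rintro W ⟨⟨f, hf, hf1, rfl⟩ | ⟨x, h0, hx, rfl⟩, v, hv, hn⟩
    · exfalso
      apply hn
      obtain ⟨b, rfl⟩ := mem_span_line hv
      rw [inner_smul_right]
      by_cases h6 : ⟪f, z⟫_ℂ = 0
      · rw [inner_eq_zero_symm.1 h6, mul_zero]
      · exact absurd ⟨f, hf, hf1, h6⟩ hg
    · rw [Set.mem_singleton_iff]
      by_contra hne
      apply hn
      refine inner_eq_zero_symm.1 (orth_span ?_ hv)
      rintro _ ⟨y, hy, rfl⟩
      by_contra hc
      apply hne
      rw [Cp_eq (Cp_adj hy hc)]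

theorem FF_sub : FF R r ⊆ G1 R r ∪ G2 R r := fun _ h => h.1

theorem FF_meet : ∀ W ∈ G1 R r ∪ G2 R r, ∃ k : G, W.map (trL k) ∈ FF R r := by
  intro W hW
  have h1 : ∃ (x : G × κ) (w : EE G κ), w ∈ W ∧ ⟪r x, w⟫_ℂ ≠ 0 := by
    rcases hW with ⟨e, he, he1, rfl⟩ | ⟨x, h0, hx, rfl⟩
    · have he0 : e ≠ 0 := by
        intro h0; rw [h0, norm_zero] at he1; exact zero_ne_one he1
      obtain ⟨x, hx⟩ := LM.nonorth D.disc he he0
      exact ⟨x, e, Submodule.mem_span_singleton_self e, hx⟩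
    · exact ⟨x, r x, Submodule.subset_span ⟨x, Cp_self x, rfl⟩, inner_self_ne_zero.2 h0⟩
  obtain ⟨⟨h, i⟩, w, hw, hn⟩ := h1
  refine ⟨h, blk_tr D W hW h, i, tr h w, ⟨w, hw, rfl⟩, ?_⟩
  have h2 : r ((1 : G), i) = tr h (r (h, i)) := by
    rw [D.tr]
    unfold ac
    simp
  rw [h2, inner_tr]
  exact hn

/-- a vector orthogonal to all blocks is orthogonal to all `r x` -/
theorem blk_all {y : EE G κ} (hy : ∀ W ∈ G1 R r ∪ G2 R r, ∀ w ∈ W, ⟪w, y⟫_ℂ = 0) (x : G × κ) :
    ⟪r x, y⟫_ℂ = 0 := by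
  by_cases h0 : r x = 0
  · rw [h0, inner_zero_left]
  by_cases hg : Good R r (r x)
  · obtain ⟨e, he, he1, h⟩ := hg
    obtain ⟨w, hw, h1, h2, h3, h4⟩ := split D.disc (rLM D _) (D.le _) he he1 h
    have k1 : ⟪e, y⟫_ℂ = 0 :=
      hy _ (Or.inl ⟨e, he, he1, rfl⟩) e (Submodule.mem_span_singleton_self e)
    have k2 : ⟪w, y⟫_ℂ = 0 := by
      rcases h4 with h4 | h4
      · rw [h4, inner_zero_left]
      · exact hy _ (Or.inl ⟨w, hw, h4, rfl⟩) w (Submodule.mem_span_singleton_self w)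
    rw [h1, inner_add_left, inner_smul_left, k1, k2]
    simp
  · exact hy _ (Or.inr ⟨x, h0, hg, rfl⟩) _ (Submodule.subset_span ⟨x, Cp_self x, rfl⟩)

/-- a vector orthogonal to all `r x` is orthogonal to all blocks -/
theorem all_blk {y : EE G κ} (hy : ∀ x, ⟪r x, y⟫_ℂ = 0) :
    ∀ W ∈ G1 R r ∪ G2 R r, ∀ w ∈ W, ⟪w, y⟫_ℂ = 0 := by
  rintro W (⟨e, he, he1, rfl⟩ | ⟨x, h0, hx, rfl⟩) w hw
  · obtain ⟨b, rfl⟩ := mem_span_line hw
    rw [inner_smul_left]
    have h1 : ∀ t : ℝ, (t : ℂ) * ⟪e, y⟫_ℂ ∈ R := by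
      intro t
      rw [← inner_smul_right]
      apply he.2
      intro x
      rw [inner_smul_right, hy x, mul_zero]
      exact R.zero_mem
    have h2 : ⟪e, y⟫_ℂ = 0 := by
      by_contra hc
      have hp : 0 < ‖⟪e, y⟫_ℂ‖ := norm_pos_iff.2 hc
      have h3 := D.disc.one_le (h1 (1 / (2 * ‖⟪e, y⟫_ℂ‖))) (mul_ne_zero (by
        rw [Complex.ofReal_ne_zero]; positivity) hc)
      rw [norm_mul, Complex.norm_real, Real.norm_of_nonneg (by positivity)] at h3
      have h4 : 1 / (2 * ‖⟪e, y⟫_ℂ‖) * ‖⟪e, y⟫_ℂ‖ = 1 / 2 := by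
        field_simp
      rw [h4] at h3
      norm_num at h3
    rw [h2, mul_zero]
  · refine orth_span ?_ hw
    rintro _ ⟨z, _, rfl⟩
    exact hy z

/-- **The dimension of the span of the `r x` is a natural number.** -/
theorem vd_nat : ∃ d : ℕ, vd (⨆ W ∈ G1 R r ∪ G2 R r, W) = d :=
  vd_blocks _ (blk_fd D) (blk_tr D) (blk_orth D) (blk_free D) (FF R r) (FF_fin D) (FF_sub D)
    (FF_meet D)

end

end Pool.Agent.V5helper32.PF
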