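import Pool.Agent.V5helper32.PF.Mn

set_option autoImplicit false
set_option linter.unusedSectionVars false

open scoped InnerProductSpace ComplexOrder
open Filter Topology

/-! Positive semidefinite matrices over a group ring: the square root and the kernel dimension. -/

namespace Pool.Agent.V5helper32.PF

open Pool.Agent.W649.ZL TH57.Thr.Ati Pool.Agent.R719.AT

variable {G : Type} [Group G] {κ : Type} [Fintype κ] [DecidableEq κ]

/-- the infinite matrix of right multiplication by `A` -/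
def form (A : Matrix κ κ (MonoidAlgebra ℂ G)) : Matrix (κ × G) (κ × G) ℂ :=
  Matrix.of fun u v => (A u.1 v.1).coeff (u.2⁻¹ * v.2)

theorem av_form (A : Matrix κ κ (MonoidAlgebra ℂ G)) (u v : G × κ) :
    av A u v = form A (u.2, u.1⁻¹) (v.2, v.1⁻¹) := by
  unfold av form
  rw [Matrix.of_apply, inv_inv]

theorem av_herm {A : Matrix κ κ (MonoidAlgebra ℂ G)} (h : (form A).IsHermitian) (u v : G × κ) :
    (starRingEnd ℂ) (av A v u) = av A u v := by
  rw [av_form, av_form]
  exact h.apply _ _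

theorem sta_eq {A : Matrix κ κ (MonoidAlgebra ℂ G)} (h : (form A).IsHermitian) : sta A = A := by
  ext j i g
  change (st (A i j)).coeff g = (A j i).coeff g
  rw [st_coeff]
  have h1 := h.apply (j, (1 : G)) (i, g)
  unfold form at h1
  simp only [Matrix.of_apply, mul_one, inv_one, one_mul] at h1
  exact h1

theorem pos_fin {A : Matrix κ κ (MonoidAlgebra ℂ G)} (h : (form A).PosSemidef)
    (F : Finset (G × κ)) (y : G × κ → ℂ) :
    0 ≤ (∑ u ∈ F, ∑ v ∈ F, (starRingEnd ℂ) (y u) * av A v u * y v).re := by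
  classical
  let e : (G × κ) ↪ (κ × G) := ⟨fun u => (u.2, u.1⁻¹), fun a b hab => by
    have h1 := (Prod.mk.inj hab).1
    have h2 := inv_injective (Prod.mk.inj hab).2
    exact Prod.ext h2 h1⟩
  let x : (κ × G) →₀ ℂ := Finsupp.onFinset (F.map e)
    (fun w => if w ∈ F.map e then (starRingEnd ℂ) (y (w.2⁻¹, w.1)) else 0) (fun w hw => by
      by_contra hc
      exact hw (if_neg hc))
  have hx : ∀ u ∈ F, x (e u) = (starRingEnd ℂ) (y u) := by
    intro u hu
    change (if e u ∈ F.map e then (starRingEnd ℂ) (y ((e u).2⁻¹, (e u).1)) else 0) = _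
    rw [if_pos (Finset.mem_map_of_mem e hu)]
    change (starRingEnd ℂ) (y (u.1⁻¹⁻¹, u.2)) = _
    rw [inv_inv]
  have hs : x.support ⊆ F.map e := Finsupp.support_onFinset_subset
  have h1 := h.2 x
  rw [Finsupp.sum_of_support_subset x hs _ (fun i _ => by
    simp [Finsupp.sum])] at h1
  rw [Finset.sum_map] at h1
  have h2 : ∀ u ∈ F, (x.sum fun j xj => star (x (e u)) * form A (e u) j * xj)
      = ∑ v ∈ F, y u * av A u v * (starRingEnd ℂ) (y v) := by
    intro u hu
    rw [Finsupp.sum_of_support_subset x hs _ (fun i _ => by simp), Finset.sum_map]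
    refine Finset.sum_congr rfl fun v hv => ?_
    rw [hx u hu, hx v hv, av_form]
    simp only [RCLike.star_def, Complex.conj_conj]
    rfl
  rw [Finset.sum_congr rfl h2] at h1
  have h3 : (∑ u ∈ F, ∑ v ∈ F, (starRingEnd ℂ) (y u) * av A v u * y v)
      = ∑ u ∈ F, ∑ v ∈ F, y u * av A u v * (starRingEnd ℂ) (y v) := by
    rw [Finset.sum_comm]
    refine Finset.sum_congr rfl fun u _ => Finset.sum_congr rfl fun v _ => ?_
    ring
  rw [h3]
  exact (Complex.le_def.1 h1).1

open Classical in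
theorem smul_dl (f : EE G κ) (v : G × κ) :
    f v • (dl v : EE G κ) = (lp.single 2 v (f v) : lp (fun _ : G × κ => ℂ) 2) := by
  ext w
  change f v * dl v w = _
  rw [lp.single_apply]
  by_cases hw : w = v
  · subst hw
    rw [dl_apply_self, mul_one]
    simp
  · rw [dl_apply_ne _ _ hw, mul_zero]
    simp [hw]

theorem tendsto_fs (f : EE G κ) : Tendsto (fun F : Finset (G × κ) => fs F f) atTop (𝓝 f) := by
  classical
  have h1 := lp.hasSum_single (E := fun _ : G × κ => ℂ) (p := 2) (by norm_num) f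
  refine Tendsto.congr (fun F => ?_) h1
  unfold fs
  refine Finset.sum_congr rfl fun v _ => ?_
  rw [smul_dl]

theorem Rop_pos {A : Matrix κ κ (MonoidAlgebra ℂ G)} (h : (form A).PosSemidef) :
    (Rop A).IsPositive := by
  have hsa : ContinuousLinearMap.adjoint (Rop A) = Rop A := by
    rw [← Rop_sta, sta_eq h.1]
  rw [ContinuousLinearMap.isPositive_def']
  refine ⟨hsa, fun f => ?_⟩
  change 0 ≤ (⟪Rop A f, f⟫_ℂ).re
  have h1 : Tendsto (fun F : Finset (G × κ) => (⟪Rop A (fs F f), fs F f⟫_ℂ).re) atTop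
      (𝓝 (⟪Rop A f, f⟫_ℂ).re) := by
    have hc : Continuous fun g : EE G κ => (⟪Rop A g, g⟫_ℂ).re :=
      Complex.continuous_re.comp (Continuous.inner (Rop A).continuous continuous_id)
    exact (hc.tendsto f).comp (tendsto_fs f)
  refine ge_of_tendsto' h1 fun F => ?_
  have h2 : (⟪Rop A (fs F f), fs F f⟫_ℂ).re = (⟪fs F f, Rop A (fs F f)⟫_ℂ).re := by
    rw [← inner_conj_symm, Complex.conj_re]
  rw [h2, inner_fs]
  have h3 : ∀ v, Rop A (fs F f) v = ∑ u ∈ F, f u * av A u v := by
    intro v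
    rw [Rop_sum A (fs F f) v F (fun u hu => by
      by_contra hn
      apply hu
      rw [fs_apply, if_neg hn, zero_mul])]
    refine Finset.sum_congr rfl fun u hu => ?_
    rw [fs_apply, if_pos hu]
  have h4 := pos_fin h F f
  refine le_of_le_of_eq h4 (congrArg Complex.re ?_)
  refine Finset.sum_congr rfl fun u _ => ?_
  rw [h3, Finset.mul_sum]
  refine Finset.sum_congr rfl fun v _ => ?_
  ring

/-- the translation as an operator -/
noncomputable def trC (k : G) : EE G κ →L[ℂ] EE G κ :=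
  LinearMap.mkContinuous (trL k) 1 (fun f => by rw [one_mul]; exact (norm_tr k f).le)

theorem exists_sqrt_gen {H : Type} [NormedAddCommGroup H] [InnerProductSpace ℂ H] [CompleteSpace H]
    (T : H →L[ℂ] H) (hT : T.IsPositive) : ∃ S : H →L[ℂ] H, (∀ x y, ⟪S x, y⟫_ℂ = ⟪x, S y⟫_ℂ) ∧
      (∀ x, S (S x) = T x) ∧ ∀ B : H →L[ℂ] H, (∀ x, T (B x) = B (T x)) → ∀ x, S (B x) = B (S x) := by
  have h0 : 0 ≤ T := (ContinuousLinearMap.nonneg_iff_isPositive _).2 hT
  have h1 := CFC.sqrt_mul_sqrt_self T h0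
  have h2 : (CFC.sqrt T).IsPositive :=
    (ContinuousLinearMap.nonneg_iff_isPositive _).1 (CFC.sqrt_nonneg T)
  refine ⟨CFC.sqrt T, fun x y => h2.inner_left_eq_inner_right x y, fun x => ?_, fun B hB x => ?_⟩
  · exact congrArg (fun T : H →L[ℂ] H => T x) h1
  · have h3 : Commute T B := by
      change T * B = B * T
      ext f
      exact hB f
    have h4 : Commute (CFC.sqrt T) B := h3.cfcₙ_nnreal _
    exact congrArg (fun T : H →L[ℂ] H => T x) h4.eq

theorem exists_sqrt {A : Matrix κ κ (MonoidAlgebra ℂ G)} (h : (form A).PosSemidef) :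
    ∃ S : EE G κ →L[ℂ] EE G κ, Eqv S ∧ (∀ x y, ⟪S x, y⟫_ℂ = ⟪x, S y⟫_ℂ) ∧
      ∀ x, S (S x) = Rop A x := by
  obtain ⟨S, h1, h2, h3⟩ := exists_sqrt_gen (Rop A) (Rop_pos h)
  exact ⟨S, fun k f => h3 (trC k) (fun x => Rop_eqv A k x) f, h1, h2⟩

/-- **The kernel dimension is an integer.** -/
theorem kap_int {A : Matrix κ κ (MonoidAlgebra ℂ G)} {R : Subring ℂ} (hR : Disc R)
    (htf : ∀ g : G, ∀ n : ℕ, 0 < n → g ^ n = 1 → g = 1)
    (hA : ∀ i j g, (A i j).coeff g ∈ R) (h : (form A).PosSemidef)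
    (h2 : ∀ i, ((A i i).coeff 1).re ≤ 2) : ∃ d : ℕ, kap A = Fintype.card κ - d := by
  obtain ⟨S, hS, hsym, hSS⟩ := exists_sqrt h
  let r : G × κ → EE G κ := fun x => S (dl x)
  have hgram : ∀ x y, ⟪r x, r y⟫_ℂ = av A y x := by
    intro x y
    change ⟪S (dl x), S (dl y)⟫_ℂ = _
    rw [hsym, hSS, inner_dl_left, Rop_dl]
  have D : Dat R r :=
    { disc := hR
      gram := fun x y => by rw [hgram]; exact hA _ _ _
      fin := fun x => (cs A x).finite_toSet.subset fun y hy => by
        have hy' : ⟪r x, r y⟫_ℂ ≠ 0 := hy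
        rw [hgram] at hy'
        exact mem_cs A y x hy'
      le := fun x => by
        have e1 : ‖r x‖ ^ 2 = (⟪r x, r x⟫_ℂ).re := by
          rw [inner_self_eq_norm_sq_to_K]
          norm_cast
        rw [e1, hgram]
        unfold av
        rw [mul_inv_cancel]
        exact h2 x.2
      tr := fun k x => by
        change tr k (S (dl x)) = S (dl (ac k x))
        rw [← hS]
        obtain ⟨a, i⟩ := x
        rw [tr_dl]
        rfl
      tf := htf }
  obtain ⟨d, hd⟩ := vd_nat D
  refine ⟨d, ?_⟩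
  have e1 : LinearMap.ker (Rop A : EE G κ →ₗ[ℂ] EE G κ)
      = LinearMap.ker (S : EE G κ →ₗ[ℂ] EE G κ) := by
    ext f
    constructor
    · intro hf
      have hf' : Rop A f = 0 := hf
      change S f = 0
      rw [← inner_self_eq_zero (𝕜 := ℂ), hsym, hSS, hf', inner_zero_right]
    · intro hf
      have hf' : S f = 0 := hf
      change Rop A f = 0
      rw [← hSS, hf', map_zero]
  have e2 := ker_add_range S hS
  have hy : ∀ y : EE G κ, (∀ x, ⟪r x, y⟫_ℂ = 0) → S y = 0 := by
    intro y hy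
    ext x
    rw [← inner_dl_left, ← hsym]
    exact hy x
  have e3 : vd (LinearMap.range (S : EE G κ →ₗ[ℂ] EE G κ)) = vd (⨆ W ∈ G1 R r ∪ G2 R r, W) := by
    apply le_antisymm
    · rw [← vd_closure (⨆ W ∈ G1 R r ∪ G2 R r, W)]
      apply vd_mono
      rw [← Submodule.orthogonal_orthogonal_eq_closure]
      rintro _ ⟨f, rfl⟩
      rw [Submodule.mem_orthogonal]
      intro y hy1
      have k1 : ∀ W ∈ G1 R r ∪ G2 R r, ∀ w ∈ W, ⟪w, y⟫_ℂ = 0 := by
        intro W hW w hw
        rw [Submodule.mem_orthogonal] at hy1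
        exact hy1 w ((le_iSup₂_of_le W hW le_rfl : W ≤ ⨆ W ∈ G1 R r ∪ G2 R r, W) hw)
      have k2 := hy y (blk_all D k1)
      change ⟪y, S f⟫_ℂ = 0
      rw [← hsym, k2, inner_zero_left]
    · rw [← vd_closure (LinearMap.range (S : EE G κ →ₗ[ℂ] EE G κ))]
      apply vd_mono
      rw [← Submodule.orthogonal_orthogonal_eq_closure]
      refine iSup₂_le fun W hW w hw => ?_
      rw [Submodule.mem_orthogonal]
      intro y hy1
      rw [Submodule.mem_orthogonal] at hy1
      have k1 : ∀ x, ⟪r x, y⟫_ℂ = 0 := fun x => hy1 _ ⟨dl x, rfl⟩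
      exact inner_eq_zero_symm.1 (all_blk D k1 W hW w hw)
  unfold kap
  rw [e1]
  rw [e3, hd] at e2
  linarith

end Pool.Agent.V5helper32.PF
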