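import Pool.Agent.V5helper32.PF.Sq
import Pool.Agent.R472.GridKer

set_option autoImplicit false
set_option linter.unusedSectionVars false

open scoped InnerProductSpace ComplexOrder
open Filter Topology

/-! Every kernel dimension of an integer matrix is that of a positive semidefinite integer matrix with
diagonal at most three. -/

namespace Pool.Agent.V5helper32.PF

open Matrix Pool.Agent.W649.ZL TH57.Thr.Ati Pool.Agent.R719.AT Pool.Agent.R472.Grid

variable {G : Type} [Group G]

/-- the sum of the squares of the coefficients -/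
def nn (x : MonoidAlgebra ℤ G) : ℤ := x.coeff.sum fun _ c => c ^ 2

theorem nn_eq (x : MonoidAlgebra ℤ G) (T : Finset G) (h : x.coeff.support ⊆ T) :
    nn x = ∑ g ∈ T, (x.coeff g) ^ 2 :=
  Finsupp.sum_of_support_subset _ h _ (fun _ _ => by simp)

theorem nn_sub (x : MonoidAlgebra ℤ G) (h : G) (e : ℤ) :
    nn (x - MonoidAlgebra.single h e) = nn x - 2 * e * x.coeff h + e ^ 2 := by
  classical
  have h1 : x.coeff.support ⊆ insert h x.coeff.support := Finset.subset_insert _ _
  have hc : ∀ g, (x - MonoidAlgebra.single h e).coeff g = x.coeff g - if h = g then e else 0 := by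
    intro g
    rw [MonoidAlgebra.coeff_sub, Finsupp.sub_apply, MonoidAlgebra.coeff_single,
      Finsupp.single_apply]
  have h2 : (x - MonoidAlgebra.single h e).coeff.support ⊆ insert h x.coeff.support := by
    intro g hg
    rw [Finsupp.mem_support_iff, hc] at hg
    rw [Finset.mem_insert, Finsupp.mem_support_iff]
    by_contra hn
    rw [not_or, not_not] at hn
    apply hg
    rw [hn.2, if_neg (fun h => hn.1 h.symm), sub_zero]
  rw [nn_eq _ _ h2, nn_eq _ _ h1]
  have h3 : ∀ g ∈ insert h x.coeff.support, ((x - MonoidAlgebra.single h e).coeff g) ^ 2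
      = (x.coeff g) ^ 2 + if h = g then - 2 * e * x.coeff h + e ^ 2 else 0 := by
    intro g _
    rw [hc]
    split_ifs with h4
    · subst h4; ring
    · ring
  rw [Finset.sum_congr rfl h3, Finset.sum_add_distrib, Finset.sum_ite_eq,
    if_pos (Finset.mem_insert_self _ _)]
  ring

theorem nn_zero : nn (0 : MonoidAlgebra ℤ G) = 0 := by
  unfold nn
  simp

theorem nn_single (h : G) (e : ℤ) : nn (MonoidAlgebra.single h e) = e ^ 2 := by
  unfold nn
  rw [MonoidAlgebra.coeff_single, Finsupp.sum_single_index (by simp)]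

theorem nn_nonneg (x : MonoidAlgebra ℤ G) : 0 ≤ nn x :=
  Finset.sum_nonneg fun _ _ => sq_nonneg _

theorem nn_pos {x : MonoidAlgebra ℤ G} (h : 0 < nn x) : ∃ g, x.coeff g ≠ 0 := by
  by_contra hc
  push Not at hc
  have : x = 0 := by
    ext g
    rw [hc g]
    simp
  rw [this, nn_zero] at h
  exact lt_irrefl _ h

section vec

variable {κ : Type} [Fintype κ] [DecidableEq κ]

/-- the square of the length of a column -/
def nv (x : κ → MonoidAlgebra ℤ G) : ℤ := ∑ a, nn (x a)

/-- a column with one entry -/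
noncomputable def dd (a : κ) (h : G) (e : ℤ) : κ → MonoidAlgebra ℤ G := Pi.single a (MonoidAlgebra.single h e)

theorem nv_sub (x : κ → MonoidAlgebra ℤ G) (a : κ) (h : G) (e : ℤ) :
    nv (x - dd a h e) = nv x - 2 * e * (x a).coeff h + e ^ 2 := by
  unfold nv dd
  have h1 : ∀ b, nn ((x - (Pi.single a (MonoidAlgebra.single h e) : κ → MonoidAlgebra ℤ G)) b)
      = nn (x b) + if b = a then - 2 * e * (x a).coeff h + e ^ 2 else 0 := by
    intro b
    rw [Pi.sub_apply]
    by_cases hb : b = a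
    · subst hb
      rw [Pi.single_eq_same, if_pos rfl, nn_sub]
      ring
    · rw [Pi.single_eq_of_ne hb, if_neg hb, sub_zero, add_zero]
  rw [Finset.sum_congr rfl fun b _ => h1 b, Finset.sum_add_distrib]
  simp
  ring

theorem nv_zero : nv (0 : κ → MonoidAlgebra ℤ G) = 0 := by
  unfold nv
  simp [nn_zero]

theorem nv_pos {x : κ → MonoidAlgebra ℤ G} (h : 0 < nv x) : ∃ a g, (x a).coeff g ≠ 0 := by
  by_contra hc
  push Not at hc
  have : nv x = 0 := by
    unfold nv
    refine Finset.sum_eq_zero fun a _ => ?_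
    by_contra h0
    obtain ⟨g, hg⟩ := nn_pos (lt_of_le_of_ne (nn_nonneg (x a)) (Ne.symm h0))
    exact hg (hc a g)
  omega

theorem dd_self (a : κ) (h : G) (e : ℤ) : (dd a h e a).coeff h = e := by
  unfold dd
  rw [Pi.single_eq_same, MonoidAlgebra.coeff_single, Finsupp.single_eq_same]

theorem dd_ne (a b : κ) (h g : G) (e : ℤ) (hn : (a, h) ≠ (b, g)) : (dd a h e b).coeff g = 0 := by
  classical
  unfold dd
  by_cases hb : b = a
  · subst hb
    rw [Pi.single_eq_same, MonoidAlgebra.coeff_single, Finsupp.single_apply, if_neg]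
    intro h1
    exact hn (by rw [h1])
  · rw [Pi.single_eq_of_ne hb]
    simp

/-- a sign with `e c = |c|` -/
theorem exists_sgn (c : ℤ) : ∃ e : ℤ, e ^ 2 = 1 ∧ e * c = |c| := by
  rcases abs_choice c with h | h
  · exact ⟨1, by norm_num, by rw [h, one_mul]⟩
  · exact ⟨-1, by norm_num, by rw [h]; ring⟩

/-- the splitting of a long column -/
theorem exists_u (x : κ → MonoidAlgebra ℤ G) (hx : 4 ≤ nv x) :
    ∃ u : κ → MonoidAlgebra ℤ G, nv u ≤ 2 ∧ nv (x - u) + 1 < nv x := by
  by_cases h1 : ∃ a g, 2 ≤ |(x a).coeff g|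
  · obtain ⟨a, g, h2⟩ := h1
    obtain ⟨e, he, hec⟩ := exists_sgn ((x a).coeff g)
    refine ⟨dd a g e, ?_, ?_⟩
    · have := nv_sub (0 : κ → MonoidAlgebra ℤ G) a g (-e)
      have h3 : (0 : κ → MonoidAlgebra ℤ G) - dd a g (-e) = dd a g e := by
        unfold dd
        rw [MonoidAlgebra.single_neg, Pi.single_neg, zero_sub, neg_neg]
      rw [h3, nv_zero] at this
      rw [this]
      simp [he]
    · rw [nv_sub, mul_assoc, hec, he]
      linarith
  · push Not at h1
    obtain ⟨a, g, h2⟩ := nv_pos (by omega : 0 < nv x)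
    obtain ⟨e, he, hec⟩ := exists_sgn ((x a).coeff g)
    have h3 : |(x a).coeff g| = 1 := by
      have := h1 a g
      have h4 : 0 < |(x a).coeff g| := abs_pos.2 h2
      omega
    have h4 : nv (x - dd a g e) = nv x - 1 := by
      rw [nv_sub, mul_assoc, hec, he, h3]
      ring
    obtain ⟨b, k, h5⟩ := nv_pos (by omega : 0 < nv (x - dd a g e))
    have hne : (a, g) ≠ (b, k) := by
      intro hab
      apply h5
      rw [← (Prod.mk.inj hab).1, ← (Prod.mk.inj hab).2, Pi.sub_apply, MonoidAlgebra.coeff_sub,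
        Finsupp.sub_apply, dd_self]
      have h6 : e * e = 1 := by rw [← _root_.sq]; exact he
      have h7 : e * (x a).coeff g = 1 := by rw [hec, h3]
      have h8 : (x a).coeff g = e := by
        calc (x a).coeff g = e * e * (x a).coeff g := by rw [h6, one_mul]
          _ = e * (e * (x a).coeff g) := by ring
          _ = e := by rw [h7, mul_one]
      rw [h8, sub_self]
    obtain ⟨f, hf, hfc⟩ := exists_sgn (((x - dd a g e) b).coeff k)
    refine ⟨dd a g e - dd b k (-f), ?_, ?_⟩
    · rw [nv_sub, dd_ne a b g k e hne]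
      have := nv_sub (0 : κ → MonoidAlgebra ℤ G) a g (-e)
      have h3 : (0 : κ → MonoidAlgebra ℤ G) - dd a g (-e) = dd a g e := by
        unfold dd
        rw [MonoidAlgebra.single_neg, Pi.single_neg, zero_sub, neg_neg]
      rw [h3, nv_zero] at this
      rw [this]
      simp [he, hf]
    · have h6 : x - (dd a g e - dd b k (-f)) = (x - dd a g e) - dd b k f := by
        have : (dd b k (-f) : κ → MonoidAlgebra ℤ G) = - dd b k f := by
          unfold dd
          rw [MonoidAlgebra.single_neg, Pi.single_neg]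
        rw [this]
        abel
      rw [h6, nv_sub, mul_assoc, hfc, hf, h4]
      have h7 : 0 < |((x - dd a g e) b).coeff k| := abs_pos.2 h5
      linarith

end vec

section step

variable {κ : Type} [Fintype κ] [DecidableEq κ]

/-- one step -/
noncomputable def ext (B : Matrix κ κ (MonoidAlgebra ℤ G)) (j : κ) (u : κ → MonoidAlgebra ℤ G) :
    Matrix (κ ⊕ Unit) (κ ⊕ Unit) (MonoidAlgebra ℤ G) :=
  fromBlocks (B - Matrix.of fun a b => if b = j then u a else 0) (Matrix.of fun a _ => u a)
    (Matrix.of fun _ b => if b = j then 1 else 0) (-1)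

theorem ext_eq (B : Matrix κ κ (MonoidAlgebra ℤ G)) (j : κ) (u : κ → MonoidAlgebra ℤ G) :
    ext B j u = fromBlocks 1 (-(Matrix.of fun a _ => u a)) 0 1 * fromBlocks B 0 0 1 *
      fromBlocks 1 0 (Matrix.of fun _ b => if b = j then 1 else 0) (-1) := by
  unfold ext
  rw [fromBlocks_multiply, fromBlocks_multiply]
  congr 1
  · ext a b : 2
    simp [Matrix.mul_apply, sub_eq_add_neg]
    split_ifs <;> simp
  · simp
  · simp
  · simp

theorem kap_ext (B : Matrix κ κ (MonoidAlgebra ℤ G)) (j : κ) (u : κ → MonoidAlgebra ℤ G) :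
    kap (toC (ext B j u)) = kap (toC B) := by
  rw [ext_eq]
  unfold toC
  rw [toC_mul, toC_mul]
  have h1 : (fromBlocks 1 (-(Matrix.of fun a _ => u a)) 0 1 :
      Matrix (κ ⊕ Unit) (κ ⊕ Unit) (MonoidAlgebra ℤ G))
      * fromBlocks 1 (Matrix.of fun a _ => u a) 0 1 = 1 := by
    rw [fromBlocks_multiply]
    simp
  have h2 : (fromBlocks 1 (Matrix.of fun a _ => u a) 0 1 :
      Matrix (κ ⊕ Unit) (κ ⊕ Unit) (MonoidAlgebra ℤ G))
      * fromBlocks 1 (-(Matrix.of fun a _ => u a)) 0 1 = 1 := by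
    rw [fromBlocks_multiply]
    simp
  have h3 : (fromBlocks 1 0 (Matrix.of fun _ b => if b = j then 1 else 0) (-1) :
      Matrix (κ ⊕ Unit) (κ ⊕ Unit) (MonoidAlgebra ℤ G))
      * fromBlocks 1 0 (Matrix.of fun _ b => if b = j then 1 else 0) (-1) = 1 := by
    rw [fromBlocks_multiply]
    simp
  have h1' := congrArg (fun X : Matrix (κ ⊕ Unit) (κ ⊕ Unit) (MonoidAlgebra ℤ G) =>
    X.map (MonoidAlgebra.mapRingHom G (Int.castRingHom ℂ))) h1
  have h2' := congrArg (fun X : Matrix (κ ⊕ Unit) (κ ⊕ Unit) (MonoidAlgebra ℤ G) =>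
    X.map (MonoidAlgebra.mapRingHom G (Int.castRingHom ℂ))) h2
  have h3' := congrArg (fun X : Matrix (κ ⊕ Unit) (κ ⊕ Unit) (MonoidAlgebra ℤ G) =>
    X.map (MonoidAlgebra.mapRingHom G (Int.castRingHom ℂ))) h3
  simp only at h1' h2' h3'
  rw [toC_mul, toC_one] at h1' h2' h3'
  rw [kap_unit_right _ h3', kap_iso _ h1' h2']
  have h4 : (fromBlocks B 0 0 1 : Matrix (κ ⊕ Unit) (κ ⊕ Unit) (MonoidAlgebra ℤ G)).map
      (MonoidAlgebra.mapRingHom G (Int.castRingHom ℂ))
      = fromBlocks (B.map (MonoidAlgebra.mapRingHom G (Int.castRingHom ℂ))) 0 0 1 := by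
    rw [fromBlocks_map, toC_one, Matrix.map_zero _ (map_zero _), Matrix.map_zero _ (map_zero _)]
  rw [h4]
  exact kap_stab _

/-- the square of the length of the column `j` -/
def nu (B : Matrix κ κ (MonoidAlgebra ℤ G)) (j : κ) : ℤ := nv fun a => B a j

theorem nu_ext_ne (B : Matrix κ κ (MonoidAlgebra ℤ G)) (j : κ) (u : κ → MonoidAlgebra ℤ G) {b : κ}
    (hb : b ≠ j) : nu (ext B j u) (Sum.inl b) = nu B b := by
  unfold nu nv ext
  rw [Fintype.sum_sum_type]
  simp [hb, nn_zero]

theorem nu_ext_j (B : Matrix κ κ (MonoidAlgebra ℤ G)) (j : κ) (u : κ → MonoidAlgebra ℤ G) :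
    nu (ext B j u) (Sum.inl j) = nv ((fun a => B a j) - u) + 1 := by
  unfold nu nv ext
  rw [Fintype.sum_sum_type]
  have h1 : nn (1 : MonoidAlgebra ℤ G) = 1 := by
    rw [MonoidAlgebra.one_def, nn_single]; norm_num
  simp [h1]

theorem nu_ext_r (B : Matrix κ κ (MonoidAlgebra ℤ G)) (j : κ) (u : κ → MonoidAlgebra ℤ G) :
    nu (ext B j u) (Sum.inr ()) = nv u + 1 := by
  unfold nu nv ext
  rw [Fintype.sum_sum_type]
  have h1 : nn (-1 : MonoidAlgebra ℤ G) = 1 := by
    rw [MonoidAlgebra.one_def, ← MonoidAlgebra.single_neg, nn_single]; norm_num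
  simp [h1]

end step

/-- the measure of a column -/
def ms (x : ℤ) : ℕ := if x ≤ 3 then 0 else x.toNat

theorem red3 : ∀ (M : ℕ) (κ : Type) [Fintype κ] [DecidableEq κ] (B : Matrix κ κ (MonoidAlgebra ℤ G)),
    ∑ j, ms (nu B j) ≤ M → ∃ (κ' : Type) (_ : Fintype κ') (_ : DecidableEq κ')
      (B' : Matrix κ' κ' (MonoidAlgebra ℤ G)), (∀ j, nu B' j ≤ 3) ∧ kap (toC B') = kap (toC B) := by
  intro M
  induction M with
  | zero =>
    intro κ _ _ B hB
    refine ⟨κ, inferInstance, inferInstance, B, fun j => ?_, rfl⟩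
    have h1 : ms (nu B j) = 0 := by
      have := Finset.single_le_sum (f := fun j => ms (nu B j)) (fun _ _ => Nat.zero_le _)
        (Finset.mem_univ j)
      omega
    unfold ms at h1
    split_ifs at h1 with h2
    · exact h2
    · omega
  | succ M ih =>
    intro κ _ _ B hB
    by_cases h : ∀ j, nu B j ≤ 3
    · exact ⟨κ, inferInstance, inferInstance, B, h, rfl⟩
    · push Not at h
      obtain ⟨j, hj⟩ := h
      obtain ⟨u, hu1, hu2⟩ := exists_u (fun a => B a j) (by change 4 ≤ nu B j; omega)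
      obtain ⟨κ', i1, i2, B', h1, h2⟩ := ih (κ ⊕ Unit) (ext B j u) (by
        have h3 : ∑ b, ms (nu (ext B j u) b)
            = (∑ b, ms (nu (ext B j u) (Sum.inl b))) + ms (nu (ext B j u) (Sum.inr ())) := by
          rw [Fintype.sum_sum_type]
          simp
        have h4 : ms (nu (ext B j u) (Sum.inr ())) = 0 := by
          unfold ms
          rw [nu_ext_r, if_pos (by omega)]
        have h5 : ∑ b, ms (nu (ext B j u) (Sum.inl b)) < ∑ b, ms (nu B b) := by
          refine Finset.sum_lt_sum (fun b _ => ?_) ⟨j, Finset.mem_univ j, ?_⟩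
          · by_cases hb : b = j
            · subst hb
              rw [nu_ext_j]
              have h6 : nu B b = nv fun a => B a b := rfl
              unfold ms
              split_ifs <;> omega
            · rw [nu_ext_ne B j u hb]
          · rw [nu_ext_j]
            have h6 : nu B j = nv fun a => B a j := rfl
            unfold ms
            split_ifs <;> omega
        omega)
      exact ⟨κ', i1, i2, B', h1, by rw [h2, kap_ext]⟩


/-! the positive semidefinite matrix -/

section psd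

variable {κ : Type} [Fintype κ] [DecidableEq κ]

theorem inner_fs_Rop (M : Matrix κ κ (MonoidAlgebra ℂ G)) (F : Finset (G × κ)) (y : G × κ → ℂ) :
    ⟪fs F y, Rop M (fs F y)⟫_ℂ
      = ∑ v ∈ F, ∑ u ∈ F, (starRingEnd ℂ) (y v) * (y u * av M u v) := by
  rw [inner_fs]
  refine Finset.sum_congr rfl fun v _ => ?_
  rw [Rop_sum M (fs F y) v F (fun u hu => by
    by_contra hn
    apply hu
    rw [fs_apply, if_neg hn, zero_mul]), Finset.mul_sum]
  refine Finset.sum_congr rfl fun u hu => ?_
  rw [fs_apply, if_pos hu]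

theorem form_pos (M : Matrix κ κ (MonoidAlgebra ℂ G)) (h : (Rop M).IsPositive) :
    (form M).PosSemidef := by
  classical
  have hfa : ∀ u v : κ × G, form M u v = av M (u.2⁻¹, u.1) (v.2⁻¹, v.1) := by
    intro u v
    rw [av_form]
    simp
  refine ⟨?_, fun x => ?_⟩
  · ext u v
    rw [Matrix.conjTranspose_apply, hfa, hfa]
    change (starRingEnd ℂ) _ = _
    rw [← Rop_dl M (v.2⁻¹, v.1), ← Rop_dl M (u.2⁻¹, u.1), ← inner_dl_left, ← inner_dl_left,
      inner_conj_symm, h.inner_left_eq_inner_right]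
  · let e : (κ × G) ↪ (G × κ) := ⟨fun u => (u.2⁻¹, u.1), fun a b hab => by
      have h1 := inv_injective (Prod.mk.inj hab).1
      have h2 := (Prod.mk.inj hab).2
      exact Prod.ext h2 h1⟩
    let y : G × κ → ℂ := fun w => (starRingEnd ℂ) (x (w.2, w.1⁻¹))
    have h1 := h.inner_nonneg_right (fs (x.support.map e) y)
    rw [inner_fs_Rop, Finset.sum_map] at h1
    refine le_of_le_of_eq h1 ?_
    unfold Finsupp.sum
    rw [Finset.sum_congr rfl fun v _ => Finset.sum_map _ _ _, Finset.sum_comm]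
    refine Finset.sum_congr rfl fun u _ => Finset.sum_congr rfl fun v _ => ?_
    have k1 : ∀ w : κ × G, y (e w) = (starRingEnd ℂ) (x w) := by
      intro w
      change (starRingEnd ℂ) (x (w.1, w.2⁻¹⁻¹)) = _
      rw [inv_inv]
    rw [k1, k1, Complex.conj_conj]
    have k2 : av M (e u) (e v) = form M u v := (hfa u v).symm
    rw [k2]
    change x v * ((starRingEnd ℂ) (x u) * form M u v) = (starRingEnd ℂ) (x u) * form M u v * x v
    ring

theorem sta_mul_pos (B : Matrix κ κ (MonoidAlgebra ℂ G)) : (Rop (sta B * B)).IsPositive := by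
  rw [ContinuousLinearMap.isPositive_def']
  have h1 : Rop (sta B * B) = (Rop B).comp (ContinuousLinearMap.adjoint (Rop B)) := by
    rw [Rop_mul, Rop_sta]
  refine ⟨?_, fun f => ?_⟩
  · change ContinuousLinearMap.adjoint (Rop (sta B * B)) = Rop (sta B * B)
    rw [h1, ContinuousLinearMap.adjoint_comp, ContinuousLinearMap.adjoint_adjoint]
  · change 0 ≤ (⟪Rop (sta B * B) f, f⟫_ℂ).re
    rw [h1]
    change 0 ≤ (⟪Rop B (ContinuousLinearMap.adjoint (Rop B) f), f⟫_ℂ).re
    rw [← ContinuousLinearMap.adjoint_inner_right]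
    exact inner_self_nonneg (𝕜 := ℂ)

theorem kap_sta_mul (B : Matrix κ κ (MonoidAlgebra ℂ G)) : kap (sta B * B) = kap B := by
  have h := kap_self (sta B)
  have h1 : sta (sta B) = B := by
    ext i j g
    change (st (st (B i j))).coeff g = _
    rw [st_coeff, st_coeff, inv_inv, Complex.conj_conj]
  rw [h1] at h
  rw [h, kap_sta]

theorem coeff_sta_mul (B : Matrix κ κ (MonoidAlgebra ℤ G)) (i j : κ) (g : G) :
    ∃ z : ℤ, ((sta (toC B) * toC B) i j).coeff g = z := by
  rw [Matrix.mul_apply, MonoidAlgebra.coeff_sum, Finsupp.finsetSum_apply]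
  have h1 : ∀ k, ∃ z : ℤ, ((sta (toC B) i k * toC B k j).coeff g : ℂ) = z := by
    intro k
    rw [MonoidAlgebra.coeff_mul_apply_left]
    unfold Finsupp.sum
    have h2 : ∀ h : G, ∃ z : ℤ, ((sta (toC B) i k).coeff h * (toC B k j).coeff (h⁻¹ * g) : ℂ) = z := by
      intro h
      refine ⟨(B k i).coeff h⁻¹ * (B k j).coeff (h⁻¹ * g), ?_⟩
      change (st (toC B k i)).coeff h * _ = _
      rw [st_coeff, toC_coeff, toC_coeff, map_intCast]
      push_cast
      rfl
    choose z hz using h2
    refine ⟨∑ h ∈ (sta (toC B) i k).coeff.support, z h, ?_⟩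
    push_cast
    exact Finset.sum_congr rfl fun h _ => hz h
  choose z hz using h1
  refine ⟨∑ k, z k, ?_⟩
  push_cast
  exact Finset.sum_congr rfl fun k _ => hz k

theorem diag_sta_mul (B : Matrix κ κ (MonoidAlgebra ℤ G)) (j : κ) :
    ((sta (toC B) * toC B) j j).coeff 1 = (nu B j : ℂ) := by
  rw [Matrix.mul_apply, MonoidAlgebra.coeff_sum, Finsupp.finsetSum_apply]
  unfold nu nv
  push_cast
  refine Finset.sum_congr rfl fun k _ => ?_
  rw [MonoidAlgebra.coeff_mul_apply_right]
  have h1 : (toC B k j).coeff.support ⊆ (B k j).coeff.support := by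
    intro g hg
    rw [Finsupp.mem_support_iff, toC_coeff] at hg
    rw [Finsupp.mem_support_iff]
    intro h0
    rw [h0] at hg
    simp at hg
  rw [Finsupp.sum_of_support_subset _ h1 _ (fun _ _ => by simp)]
  unfold nn Finsupp.sum
  push_cast
  refine Finset.sum_congr rfl fun h _ => ?_
  change (st (toC B k j)).coeff (1 * h⁻¹) * (toC B k j).coeff h = _
  rw [st_coeff, one_mul, inv_inv, toC_coeff, map_intCast]
  ring

/-- **Level three.** -/
theorem level3 (B : Matrix κ κ (MonoidAlgebra ℤ G)) :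
    ∃ (κ' : Type) (_ : Fintype κ') (_ : DecidableEq κ') (M : Matrix κ' κ' (MonoidAlgebra ℂ G)),
      (∀ i j g, ∃ z : ℤ, (M i j).coeff g = z) ∧ (form M).PosSemidef ∧
      (∀ i, ((M i i).coeff 1).re ≤ 3) ∧ kap M = kap (toC B) := by
  obtain ⟨κ', i1, i2, B', h1, h2⟩ := red3 _ κ B le_rfl
  refine ⟨κ', i1, i2, sta (toC B') * toC B', coeff_sta_mul B', form_pos _ (sta_mul_pos _),
    fun i => ?_, ?_⟩
  · rw [diag_sta_mul, Complex.intCast_re]
    exact_mod_cast h1 i
  · rw [kap_sta_mul, h2]

end psd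

end Pool.Agent.V5helper32.PF
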